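import Pool.Agent.Helper578.JD.HGen

/-!
There is a set `D` of natural numbers with `D^(4)` Turing equivalent to `0^(4)` which is not
computable in `0^(3)`.
-/

set_option autoImplicit false

namespace Pool.Agent.R922

open Encodable Pool.Agent.Helper578.JD Pool.Agent.Helper578.JD.Oracle
  Pool.Agent.Helper578.JD.Defs Pool.Agent.Helper578.JD.HG

/-- Every set `Z` has a 1-generic set which is computable in the jump of `Z`. -/
theorem exists_generic1 (Z : Set ℕ) : ∃ X : Set ℕ, Red X (jump Z) ∧ OneGen X Z := by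
  obtain ⟨j, hj, hj'⟩ := smn (α := ℕ × Info) (β := Info)
    (P := fun x d => ∃ q : Info, W x.1 (encode (q, d)) ∧ Cons (x.2.1 ++ q.1, x.2.2 ++ q.2)) (by
      refine RE.ex (p := fun (y : (ℕ × Info) × Info) (q : Info) =>
        W y.1.1 (encode (q, y.2)) ∧ Cons (y.1.2.1 ++ q.1, y.1.2.2 ++ q.2)) ?_
      refine RE.and ?_ (cons_re (by fun_prop))
      exact RE.comp W_re (f := fun z : ((ℕ × Info) × Info) × Info =>
        (z.1.1.1, encode (z.2, z.1.2))) (by fun_prop))
  obtain ⟨i, hi, hi'⟩ := smn (α := ℕ × Info) (β := Info)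
    (P := fun x d => W x.1 (encode (x.2, d))) (by
      exact RE.comp W_re (f := fun z : (ℕ × Info) × Info =>
        (z.1.1, encode (z.1.2, z.2))) (by fun_prop))
  obtain ⟨X, hX1, hX2⟩ := generic_aux (Z := jump Z) (f := i) (g := j) hi hj (by
    intro e p
    constructor
    · rintro ⟨d, hd, hW⟩
      obtain ⟨q, hq, hc⟩ := (hj' (e, p) d).1 hW
      exact ⟨q, ⟨d, hd, (hi' (e, q) d).2 hq⟩, hc⟩
    · rintro ⟨q, ⟨d, hd, hW⟩, hc⟩
      exact ⟨d, hd, (hj' (e, p) d).2 ⟨q, (hi' (e, q) d).1 hW, hc⟩⟩)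
  refine ⟨X, hX1, ?_⟩
  intro V hV
  obtain ⟨R', hR', hV'⟩ := hV
  obtain ⟨e, -, he⟩ := smn (α := ℕ) (β := Info × Info) (P := fun _ y => R' y.1 y.2)
    (RE.comp hR' (f := fun x : ℕ × (Info × Info) => x.2) (by fun_prop))
  have hVi : ∀ q, V q ↔ i (e 0, q) ∈ jump Z := by
    intro q
    rw [hV']
    constructor
    · rintro ⟨d, h1, h2⟩
      exact ⟨d, h2, (hi' (e 0, q) d).2 ((he 0 (q, d)).2 h1)⟩
    · rintro ⟨d, h2, h1⟩
      exact ⟨d, (he 0 (q, d)).1 ((hi' (e 0, q) d).1 h1), h2⟩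
  rcases hX2 (e 0) with ⟨q, h2, h3⟩ | ⟨p, h2, h3⟩
  · exact Or.inl ⟨q, h2, (hVi q).2 h3⟩
  · exact Or.inr ⟨p, h2, fun q hq => h3 q ((hVi q).1 hq)⟩

/-- A relation enumerable in `A` is decidable in the jump of `A`. -/
theorem REIn.to_jump {α : Type*} [Primcodable α] {A : Set ℕ} {S : α → Prop} (h : REIn A S) :
    REIn (jump A) S ∧ REIn (jump A) fun a => ¬ S a := by
  obtain ⟨f, hf, h1⟩ := REIn_iff_jump.1 h
  exact ⟨(REIn.mem hf).of_eq fun a => (h1 a).symm,
    (REIn.not_mem hf).of_eq fun a => not_congr (h1 a).symm⟩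

theorem Red_of_REIn {A B : Set ℕ} (h : REIn A (· ∈ B)) : Red B (jump A) :=
  Red_iff.2 (REIn.to_jump h)

theorem Red_join {A B C : Set ℕ} (hA : Red A C) (hB : Red B C) : Red (join A B) C := by
  rw [Red_iff] at *
  have hm : Computable fun n : ℕ => n % 2 := cmod2 Computable.id
  have hd : Computable fun n : ℕ => n / 2 := cdiv2 Computable.id
  constructor
  · have h1 : REIn C fun n : ℕ => (n % 2 = 0 ∧ n / 2 ∈ A) ∨ (n % 2 = 1 ∧ n / 2 ∈ B) :=
      REIn.or (REIn.and (REIn.of_re (RE.eq hm (by fun_prop))) (hA.1.comp hd))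
        (REIn.and (REIn.of_re (RE.eq hm (by fun_prop))) (hB.1.comp hd))
    exact h1.of_eq fun n => Iff.rfl
  · have h1 : REIn C fun n : ℕ => (n % 2 = 0 ∧ n / 2 ∉ A) ∨ (n % 2 = 1 ∧ n / 2 ∉ B) :=
      REIn.or (REIn.and (REIn.of_re (RE.eq hm (by fun_prop))) (hA.2.comp hd))
        (REIn.and (REIn.of_re (RE.eq hm (by fun_prop))) (hB.2.comp hd))
    refine h1.of_eq fun n => ?_
    have h0 : n % 2 = 0 ∨ n % 2 = 1 := by omega
    show _ ↔ ¬ ((n % 2 = 0 ∧ n / 2 ∈ A) ∨ (n % 2 = 1 ∧ n / 2 ∈ B))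
    rcases h0 with h0 | h0 <;> simp [h0]

theorem Red_jump_mono {A B : Set ℕ} (h : Red A B) : Red (jump A) (jump B) :=
  Red_of_REIn (reMono mem_jump_re h)

/-- the jump of the join of a generic set and `Z` -/
theorem Red_jump_join {X Z : Set ℕ} (hX : OneGen X Z) :
    Red (jump (join X Z)) (join X (jump Z)) := by
  have hXJ : Red X (join X (jump Z)) := Red_join_left _ _
  have hZJ : Red (jump Z) (join X (jump Z)) := Red_join_right _ _
  have hok : REIn (join X (jump Z)) fun x : ℕ × Info => Ok X x.2 := by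
    refine REIn.and ?_ ?_
    · exact REIn.all_mem (S := fun (_ : ℕ × Info) x => x ∈ X) (l := fun x => x.2.1)
        (((Red_iff.1 hXJ).1).comp Computable.snd) (by fun_prop)
    · exact REIn.all_mem (S := fun (_ : ℕ × Info) x => x ∉ X) (l := fun x => x.2.2)
        (((Red_iff.1 hXJ).2).comp Computable.snd) (by fun_prop)
  rw [Red_iff]
  constructor
  · have h1 : REIn Z fun x : ℕ × Info => ∃ w, Ok Z w ∧ V x.1 x.2 w := by
      refine ⟨fun x w => V x.1 x.2 w, ?_, fun x => ?_⟩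
      · exact RE.comp V_re (f := fun x : (ℕ × Info) × Info => (x.1.1, x.1.2, x.2)) (by fun_prop)
      · constructor
        · rintro ⟨w, h1, h2⟩; exact ⟨w, h2, h1⟩
        · rintro ⟨w, h1, h2⟩; exact ⟨w, h2, h1⟩
    have h2 : REIn (join X (jump Z)) fun x : ℕ × Info => Ok X x.2 ∧ ∃ w, Ok Z w ∧ V x.1 x.2 w :=
      REIn.and hok (reMono (REIn.to_jump h1).1 hZJ)
    have h3 := REIn.ex (S := fun (m : ℕ) (p : Info) => Ok X p ∧ ∃ w, Ok Z w ∧ V m p w) h2
    exact h3.of_eq fun m => mem_jump_join.symm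
  · have h1 : REIn Z fun x : ℕ × Info => ∃ w, Ok Z w ∧ ∃ q, Cons (app x.2 q) ∧ V x.1 q w := by
      refine ⟨fun x w => ∃ q, Cons (app x.2 q) ∧ V x.1 q w, ?_, fun x => ?_⟩
      · refine RE.ex (p := fun (y : (ℕ × Info) × Info) (q : Info) => Cons (app y.1.2 q) ∧
          V y.1.1 q y.2) ?_
        refine RE.and (ccons (by fun_prop) (by fun_prop)) ?_
        exact RE.comp V_re (f := fun x : ((ℕ × Info) × Info) × Info => (x.1.1.1, x.2, x.1.2))
          (by fun_prop)
      · constructor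
        · rintro ⟨w, h1, h2⟩; exact ⟨w, h2, h1⟩
        · rintro ⟨w, h1, h2⟩; exact ⟨w, h2, h1⟩
    have h2 : REIn (join X (jump Z)) fun x : ℕ × Info => Ok X x.2 ∧
        ¬ ∃ w, Ok Z w ∧ ∃ q, Cons (app x.2 q) ∧ V x.1 q w :=
      REIn.and hok (reMono (REIn.to_jump h1).2 hZJ)
    have h3 := REIn.ex (S := fun (m : ℕ) (p : Info) => Ok X p ∧
      ¬ ∃ w, Ok Z w ∧ ∃ q, Cons (app p q) ∧ V m q w) h2
    exact h3.of_eq fun m => (not_mem_jump_join hX).symm

/-- A generic set is not computable. -/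
theorem OneGen.not_Red {X Z : Set ℕ} (hX : OneGen X Z) : ¬ Red X Z := by
  intro h
  have hV : REIn Z fun p : Info => (∃ x : ℕ, x ∈ p.1 ∧ x ∉ X) ∨ ∃ x : ℕ, x ∈ p.2 ∧ x ∈ X := by
    refine REIn.or ?_ ?_
    · exact REIn.ex (S := fun (p : Info) (x : ℕ) => x ∈ p.1 ∧ x ∉ X)
        (REIn.and (REIn.of_re (RE.mem_list (by fun_prop) (by fun_prop)))
          ((Red_iff.1 h).2.comp Computable.snd))
    · exact REIn.ex (S := fun (p : Info) (x : ℕ) => x ∈ p.2 ∧ x ∈ X)
        (REIn.and (REIn.of_re (RE.mem_list (by fun_prop) (by fun_prop)))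
          ((Red_iff.1 h).1.comp Computable.snd))
  rcases hX _ hV with ⟨p, hp, h1 | h1⟩ | ⟨p, hp, h1⟩
  · obtain ⟨x, h2, h3⟩ := h1
    exact h3 (hp.1 x h2)
  · obtain ⟨x, h2, h3⟩ := h1
    exact hp.2 x h2 h3
  · obtain ⟨x, hx⟩ : ∃ x, x ∉ p.1 ++ p.2 := Infinite.exists_notMem_finset (p.1 ++ p.2).toFinset
      |>.imp fun x hx h => hx (by simpa using h)
    rw [List.mem_append, not_or] at hx
    by_cases hxX : x ∈ X
    · refine h1 ([], [x]) (Or.inr ⟨x, by simp, hxX⟩) ?_
      intro y hy hy'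
      simp only [app, List.append_nil, List.mem_append, List.mem_singleton] at hy hy'
      rcases hy' with h4 | rfl
      · exact hp.2 y h4 (hp.1 y hy)
      · exact hx.1 hy
    · refine h1 ([x], []) (Or.inl ⟨x, by simp, hxX⟩) ?_
      intro y hy hy'
      simp only [app, List.append_nil, List.mem_append, List.mem_singleton] at hy hy'
      rcases hy with h4 | rfl
      · exact hp.2 y hy' (hp.1 y h4)
      · exact hx.2 hy'

/-- the iterated jumps of the empty set increase -/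
theorem Red_iter_le {k n : ℕ} (h : k ≤ n) : Red (jump^[k] ∅) (jump^[n] ∅) := by
  induction n, h using Nat.le_induction with
  | base => exact Red.refl _
  | succ n _ ih =>
    rw [Function.iterate_succ_apply']
    exact ih.trans (Red_jump _)

theorem Red_iter_mono {A B : Set ℕ} (h : Red A B) (n : ℕ) : Red (jump^[n] A) (jump^[n] B) := by
  induction n with
  | zero => exact h
  | succ n ih =>
    rw [Function.iterate_succ_apply', Function.iterate_succ_apply']
    exact Red_jump_mono ih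

theorem Red_empty (A : Set ℕ) : Red ∅ A := by
  rw [Red_iff]
  constructor
  · refine (REIn.of_re (RE.const False)).of_eq fun n => ?_
    simp
  · refine (REIn.of_re (RE.const True)).of_eq fun n => ?_
    simp

/-- **There is a set of low₄ degree which is not computable in the third jump of the empty set.** -/
theorem exists_low4 : ∃ D : Set ℕ, deg (jump^[4] D) = deg (jump^[4] ∅) ∧
    ¬ Red D (jump^[3] ∅) := by
  obtain ⟨X, h1, h2⟩ := exists_generic1 (jump^[3] ∅)
  have h1' : Red X (jump^[4] ∅) := by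
    rw [Function.iterate_succ_apply']
    exact h1
  refine ⟨X, ?_, OneGen.not_Red h2⟩
  have key : ∀ k, k ≤ 4 → Red (jump^[k] X) (join X (jump^[k] ∅)) := by
    intro k
    induction k with
    | zero => intro _; exact Red_join_left _ _
    | succ k ih =>
      intro hk
      have h3 : OneGen X (jump^[k] ∅) := OneGen.mono h2 (Red_iter_le (by omega))
      rw [Function.iterate_succ_apply', Function.iterate_succ_apply']
      exact (Red_jump_mono (ih (by omega))).trans (Red_jump_join h3)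
  have h4 : Red (jump^[4] X) (jump^[4] ∅) :=
    (key 4 le_rfl).trans (Red_join h1' (Red.refl _))
  have h5 : Red (jump^[4] ∅) (jump^[4] X) := Red_iter_mono (Red_empty X) 4
  exact le_antisymm (α := TuringDegree) h4 h5

end Pool.Agent.R922
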