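import Pool.Agent.Helper578.JD.Defs

/-!
Definitions used in the statement on presentations of Polish spaces. The (iterated) Turing jump
`jump`, the characteristic function `chi` of a set as an oracle and the Turing degree `deg` of a set
are those of `Pool/Agent/Helper578/JD/Defs.lean` (where `Pool/Agent/Helper578/JD/Sanity.lean` proves
that `jump A` is many-one complete for the domains of the partial functions recursive in `A`).
-/

set_option autoImplicit false

namespace Pool.Agent.R922

open Pool.Agent.Helper578.JD Pool.Agent.Helper578.JD.Defs

/-- The topological space `X` has a `D`-computable presentation: a complete metric compatible with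
the topology and a dense sequence `x` such that some function `f` computable relative to (the
characteristic function `chi D` of) `D` sends each `(i, j, n)` to (numerator and denominator minus
one of) a rational number within `2 ^ (-n)` of the distance of `x i` and `x j`. -/
def Presented (D : Set ℕ) (X : Type) [t : TopologicalSpace X] : Prop :=
  ∃ m : MetricSpace X, m.toUniformSpace.toTopologicalSpace = t ∧
    @CompleteSpace X m.toUniformSpace ∧
    ∃ x : ℕ → X, DenseRange x ∧ ∃ f : ℕ × ℕ × ℕ → ℕ × ℕ, ComputableIn {chi D} f ∧
      ∀ i j n, |m.dist (x i) (x j) - ((f (i, j, n)).1 : ℝ) / ((f (i, j, n)).2 + 1)| ≤ 1 / 2 ^ n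

/-- The covering dimension of the topological space `X` is at most `n`: every finite open cover
has a finite open refinement such that every point lies in at most `n + 1` of its members. -/
def CoveringDimLE (X : Type) [TopologicalSpace X] (n : ℕ) : Prop :=
  ∀ (ι : Type) [Finite ι] (U : ι → Set X), (∀ i, IsOpen (U i)) → (⋃ i, U i) = Set.univ →
    ∃ (κ : Type) (_ : Finite κ) (V : κ → Set X), (∀ k, IsOpen (V k)) ∧ (⋃ k, V k) = Set.univ ∧
      (∀ k, ∃ i, V k ⊆ U i) ∧ ∀ x, {k | x ∈ V k}.ncard ≤ n + 1

end Pool.Agent.R922
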