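import Pool.Agent.R922.Sol
import Pool.Agent.R922.PDefs

/-!
A metric on the solenoid, and its covering dimension.
-/

set_option autoImplicit false

namespace Pool.Agent.R922

open Filter Topology Pool.Agent.Helper578.JD

/-- the metric of the solenoid -/
@[reducible] noncomputable def solMetric (D : Set ℕ) : MetricSpace (Sol D) :=
  letI : MetricSpace (ℕ → T) := PiCountable.metricSpace
  inferInstance

theorem solMetric_top (D : Set ℕ) :
    (solMetric D).toUniformSpace.toTopologicalSpace = (inferInstance : TopologicalSpace (Sol D)) :=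
  rfl

theorem solDist (D : Set ℕ) (x y : Sol D) :
    (solMetric D).dist x y = ∑' i : ℕ, min ((2⁻¹ : ℝ) ^ i) ‖x.1 i - y.1 i‖ := by
  have h : (solMetric D).dist x y =
    ∑' i : ℕ, min ((2⁻¹ : ℝ) ^ (Encodable.encode i)) (dist (x.1 i) (y.1 i)) := rfl
  rw [h]
  simp only [Encodable.encode_nat, dist_eq_norm]

theorem solDist_tail (D : Set ℕ) (x y : Sol D) (n : ℕ) :
    (∑ i ∈ Finset.range n, min ((2⁻¹ : ℝ) ^ i) ‖x.1 i - y.1 i‖) ≤ (solMetric D).dist x y ∧
    (solMetric D).dist x y ≤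
      (∑ i ∈ Finset.range n, min ((2⁻¹ : ℝ) ^ i) ‖x.1 i - y.1 i‖) + 2 * (2⁻¹ : ℝ) ^ n := by
  have hg : Summable fun i : ℕ => (2⁻¹ : ℝ) ^ i :=
    summable_geometric_of_lt_one (by norm_num) (by norm_num)
  have hs : Summable fun i : ℕ => min ((2⁻¹ : ℝ) ^ i) ‖x.1 i - y.1 i‖ :=
    Summable.of_nonneg_of_le (fun i => le_min (by positivity) (norm_nonneg _))
      (fun i => min_le_left _ _) hg
  have h1 := hs.sum_add_tsum_nat_add n
  rw [solDist, ← h1]
  have hs' : Summable fun i : ℕ => min ((2⁻¹ : ℝ) ^ (i + n)) ‖x.1 (i + n) - y.1 (i + n)‖ :=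
    (summable_nat_add_iff n).2 hs
  have hg' : Summable fun i : ℕ => (2⁻¹ : ℝ) ^ (i + n) := (summable_nat_add_iff n).2 hg
  constructor
  · refine le_add_of_nonneg_right (tsum_nonneg fun i => le_min (by positivity) (norm_nonneg _))
  · refine add_le_add le_rfl ?_
    refine (hs'.tsum_le_tsum (fun i => min_le_left _ _) hg').trans ?_
    simp_rw [pow_add]
    rw [tsum_mul_right, tsum_geometric_of_lt_one (by norm_num) (by norm_num)]
    norm_num

/-- the small arcs of the circle -/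
def arc (L : ℕ) (s : Bool) (b : ℕ) : Set T :=
  {t | ∃ x : ℝ, (x : T) = t ∧ (b : ℝ) < x * L - (if s then 1 / 2 else 0) ∧
    x * L - (if s then 1 / 2 else 0) < b + 1}

theorem isOpen_arc (L : ℕ) (s : Bool) (b : ℕ) : IsOpen (arc L s b) := by
  have h : arc L s b = (fun x : ℝ => (x : T)) '' {x : ℝ | (b : ℝ) < x * L -
      (if s then 1 / 2 else 0) ∧ x * L - (if s then 1 / 2 else 0) < b + 1} := by
    ext t
    constructor
    · rintro ⟨x, h1, h2⟩; exact ⟨x, h2, h1⟩
    · rintro ⟨x, h2, h1⟩; exact ⟨x, h1, h2⟩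
  rw [h]
  refine QuotientAddGroup.isOpenMap_coe _ ?_
  have hc : Continuous fun x : ℝ => x * L - (if s then 1 / 2 else 0 : ℝ) :=
    (continuous_id.mul continuous_const).sub continuous_const
  exact IsOpen.inter (isOpen_lt continuous_const hc) (isOpen_lt hc continuous_const)

theorem arc_cover {L : ℕ} (hL : 0 < L) (t : T) : ∃ s b, b < L ∧ t ∈ arc L s b := by
  obtain ⟨x, rfl, -⟩ := exists_lift t
  have hL' : (0 : ℝ) < L := by exact_mod_cast hL
  obtain ⟨s, c, h1, h2⟩ : ∃ (s : Bool) (c : ℤ), (c : ℝ) < x * L - (if s then 1 / 2 else 0) ∧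
      x * L - (if s then 1 / 2 else 0) < c + 1 := by
    by_cases h : (⌊x * L⌋ : ℝ) = x * L
    · refine ⟨true, ⌊x * L⌋ - 1, ?_, ?_⟩
      · push_cast; rw [h]; simp only [if_true]; linarith
      · push_cast; rw [h]; simp only [if_true]; linarith
    · refine ⟨false, ⌊x * L⌋, ?_, ?_⟩
      · simpa using lt_of_le_of_ne (Int.floor_le _) h
      · simp
  have hL0 : (L : ℤ) ≠ 0 := by exact_mod_cast hL.ne'
  have h3 : 0 ≤ c % L := Int.emod_nonneg _ hL0
  have h4 : c % L < L := Int.emod_lt_of_pos _ (by exact_mod_cast hL)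
  refine ⟨s, (c % L).toNat, by omega, x - (c / L : ℤ), ?_, ?_⟩
  · rw [AddCircle.coe_sub, coe_int, sub_zero]
  · have h5 : ((c % L).toNat : ℝ) = ((c % L : ℤ) : ℝ) := by
      have : (((c % L).toNat : ℤ) : ℝ) = ((c % L : ℤ) : ℝ) := by rw [Int.toNat_of_nonneg h3]
      exact_mod_cast this
    have h6 : ((c % L : ℤ) : ℝ) = c - L * (c / L : ℤ) := by
      have := Int.emod_add_mul_ediv c L
      have h7 : (c % L : ℤ) = c - L * (c / L) := by linarith
      rw [h7]; push_cast; rfl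
    rw [h5, h6]
    constructor <;> nlinarith

theorem arc_unique {L : ℕ} (hL : 0 < L) {s : Bool} {b b' : ℕ} (hb : b < L) (hb' : b' < L) {t : T}
    (h : t ∈ arc L s b) (h' : t ∈ arc L s b') : b = b' := by
  obtain ⟨x, h1, h2, h3⟩ := h
  obtain ⟨y, h4, h5, h6⟩ := h'
  have hL' : (0 : ℝ) < L := by exact_mod_cast hL
  obtain ⟨z, hz⟩ : ∃ z : ℤ, x - y = z := by
    have : ((x - y : ℝ) : T) = 0 := by rw [AddCircle.coe_sub, h1, h4, sub_self]
    rw [AddCircle.coe_eq_zero_iff] at this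
    obtain ⟨z, hz⟩ := this
    exact ⟨z, by simpa using hz.symm⟩
  have h7 : (b : ℝ) - b' < L * z + 1 := by
    have : x * L = y * L + L * z := by rw [← hz]; ring
    linarith
  have h8 : (L : ℝ) * z - 1 < (b : ℝ) - b' := by
    have : x * L = y * L + L * z := by rw [← hz]; ring
    linarith
  have h9 : (b : ℤ) - b' < L * z + 1 := by exact_mod_cast h7
  have h10 : (L : ℤ) * z - 1 < (b : ℤ) - b' := by exact_mod_cast h8
  have h11 : (b : ℤ) - b' = L * z := by omega
  have h12 : z = 0 := by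
    by_contra hne
    have : (L : ℤ) ≤ |(L : ℤ) * z| := by
      rw [abs_mul, abs_of_pos (show (0 : ℤ) < L by exact_mod_cast hL)]
      have : 1 ≤ |z| := Int.one_le_abs hne
      nlinarith [show (0 : ℤ) < L by exact_mod_cast hL]
    rw [← h11] at this
    have h13 : |(b : ℤ) - b'| < L := by
      rw [abs_lt]; omega
    omega
  rw [h12, mul_zero] at h11
  omega

theorem arc_small {L : ℕ} (hL : 0 < L) {s : Bool} {b : ℕ} {t t' : T}
    (h : t ∈ arc L s b) (h' : t' ∈ arc L s b) : ‖t - t'‖ ≤ 1 / L := by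
  obtain ⟨x, h1, h2, h3⟩ := h
  obtain ⟨y, h4, h5, h6⟩ := h'
  have hL' : (0 : ℝ) < L := by exact_mod_cast hL
  rw [← h1, ← h4, ← AddCircle.coe_sub]
  refine (norm_coe_le _).trans ?_
  rw [le_div_iff₀ hL', ← abs_of_pos hL', ← abs_mul, abs_le]
  constructor <;> nlinarith

theorem covering_dim (D : Set ℕ) : CoveringDimLE (Sol D) 1 := by
  intro ι _ U hU hcov
  have hc : IsCompact (Set.univ : Set (Sol D)) := isCompact_univ
  let _ := solMetric D
  obtain ⟨δ, hδ, hleb⟩ := lebesgue_number_lemma_of_metric (s := (Set.univ : Set (Sol D)))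
    hc hU hcov.ge
  obtain ⟨n, hn⟩ : ∃ n : ℕ, 2 * (2⁻¹ : ℝ) ^ n < δ / 2 := by
    obtain ⟨n, hn⟩ := exists_pow_lt_of_lt_one (show (0 : ℝ) < δ / 4 by positivity)
      (show (2⁻¹ : ℝ) < 1 by norm_num)
    exact ⟨n, by linarith⟩
  obtain ⟨L, hL⟩ : ∃ L : ℕ, 0 < L ∧ (n : ℝ) * PP D n * (1 / L) < δ / 2 := by
    obtain ⟨L, hL⟩ := exists_nat_gt ((n : ℝ) * PP D n * (2 / δ))
    have hL0 : (0 : ℝ) < L := lt_of_le_of_lt (by positivity) hL
    refine ⟨L, by exact_mod_cast hL0, ?_⟩
    rw [mul_one_div, div_lt_iff₀ hL0]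
    have h2 : (n : ℝ) * PP D n = (n : ℝ) * PP D n * (2 / δ) * (δ / 2) := by field_simp
    rw [h2, mul_comm (δ / 2)]
    exact mul_lt_mul_of_pos_right hL (by positivity)
  refine ⟨Bool × Fin L, inferInstance, fun k => {z | z.1 n ∈ arc L k.1 k.2}, ?_, ?_, ?_, ?_⟩
  · intro k
    exact (isOpen_arc L k.1 k.2).preimage ((continuous_apply n).comp continuous_subtype_val)
  · rw [Set.eq_univ_iff_forall]
    intro z
    obtain ⟨s, b, hb, h⟩ := arc_cover hL.1 (z.1 n)
    exact Set.mem_iUnion.2 ⟨(s, ⟨b, hb⟩), h⟩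
  · rintro ⟨s, b⟩
    by_cases hne : ∃ z : Sol D, z.1 n ∈ arc L s b
    · obtain ⟨z, hz⟩ := hne
      obtain ⟨i, hi⟩ := hleb z (Set.mem_univ z)
      refine ⟨i, fun w hw => hi ?_⟩
      rw [Metric.mem_ball]
      have hw' : w.1 n ∈ arc L s b := hw
      have h1 : ‖w.1 n - z.1 n‖ ≤ 1 / L := arc_small hL.1 hw' hz
      have h2 := (solDist_tail D w z n).2
      have h3 : (∑ i ∈ Finset.range n, min ((2⁻¹ : ℝ) ^ i) ‖w.1 i - z.1 i‖) ≤
          n * (PP D n * (1 / L)) := by
        have h4 : ∀ i ∈ Finset.range n, min ((2⁻¹ : ℝ) ^ i) ‖w.1 i - z.1 i‖ ≤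
            PP D n * (1 / L) := by
          intro i hi
          refine (min_le_right _ _).trans ?_
          have hin : i ≤ n := (Finset.mem_range.1 hi).le
          obtain ⟨c, h5, h6⟩ := Sol_rel w.2 hin
          obtain ⟨c', h5', h6'⟩ := Sol_rel z.2 hin
          have hcc : c' = c := Nat.eq_of_mul_eq_mul_left (PP_pos D i) (h5'.symm.trans h5)
          rw [h6, h6', hcc, ← nsmul_sub]
          refine (norm_nsmul_le (n := c) (a := w.1 n - z.1 n)).trans ?_
          refine mul_le_mul ?_ h1 (norm_nonneg _) (Nat.cast_nonneg _)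
          have : c ≤ PP D n := Nat.le_of_dvd (PP_pos D n) ⟨PP D i, by rw [h5, mul_comm]⟩
          exact_mod_cast this
        have := Finset.sum_le_card_nsmul _ _ _ h4
        simpa [nsmul_eq_mul] using this
      have h7 : (solMetric D).dist w z < δ := by
        have h8 := hL.2
        rw [mul_assoc] at h8
        linarith
      exact h7
    · obtain ⟨i, -⟩ := Set.mem_iUnion.1 (hcov.ge (Set.mem_univ (iota D 0)))
      exact ⟨i, fun w hw => absurd ⟨w, hw⟩ hne⟩
  · intro z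
    have h1 : Set.InjOn Prod.fst {k : Bool × Fin L | z ∈ {z : Sol D | z.1 n ∈ arc L k.1 k.2}} := by
      rintro ⟨s, b⟩ h ⟨s', b'⟩ h' heq
      have e : s = s' := heq
      subst e
      have := arc_unique hL.1 b.2 b'.2 h h'
      rw [Fin.ext this]
    have h2 := Set.ncard_le_ncard_of_injOn (s := {k : Bool × Fin L | z ∈ {z : Sol D | z.1 n ∈ arc L k.1 k.2}})
      (t := (Set.univ : Set Bool)) Prod.fst (fun _ _ => Set.mem_univ _) h1 (Set.toFinite _)
    simpa using h2

end Pool.Agent.R922
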