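import Pool.Agent.R922.Sol

/-!
Divisibility by `p` of a continuous map of a compact metric space to the circle is detected by
finite approximations.
-/

set_option autoImplicit false

namespace Pool.Agent.R922

open Filter Topology

/-- the points `a / M` and `b / M` of the circle have distance less than `c / M` -/
def Near (a b M c : ℕ) : Prop :=
  ∃ s t : ℕ, a + s * M < b + t * M + c ∧ b + t * M < a + s * M + c

theorem near_iff {a b M c : ℕ} (hM : 0 < M) :
    Near a b M c ↔ ‖(((a : ℝ) / M : ℝ) : T) - (((b : ℝ) / M : ℝ) : T)‖ < (c : ℝ) / M := by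
  have hM' : (0 : ℝ) < M := by exact_mod_cast hM
  rw [← AddCircle.coe_sub]
  constructor
  · rintro ⟨s, t, h1, h2⟩
    have h1' : (a : ℝ) + s * M < b + t * M + c := by exact_mod_cast h1
    have h2' : (b : ℝ) + t * M < a + s * M + c := by exact_mod_cast h2
    have h3 : (((a : ℝ) / M - b / M : ℝ) : T) =
        (((a : ℝ) / M - b / M + (((s : ℤ) - (t : ℤ) : ℤ) : ℝ) : ℝ) : T) := by
      rw [AddCircle.coe_add, coe_int, add_zero]
    rw [h3]
    refine (norm_coe_le _).trans_lt ?_
    rw [lt_div_iff₀ hM', ← abs_of_pos hM', ← abs_mul, abs_of_pos hM', abs_lt]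
    push_cast
    have e : ((a : ℝ) / M - b / M + (s - t)) * M = a + s * M - (b + t * M) := by field_simp; ring
    rw [e]
    constructor <;> linarith
  · intro h
    rw [UnitAddCircle.norm_eq] at h
    set z := round ((a : ℝ) / M - b / M) with hz
    refine ⟨(-z).toNat, z.toNat, ?_⟩
    rw [lt_div_iff₀ hM', ← abs_of_pos hM', ← abs_mul, abs_of_pos hM', abs_lt] at h
    have e : ((a : ℝ) / M - b / M - z) * M = a - b - z * M := by field_simp
    rw [e] at h
    have e2 : (((-z).toNat : ℝ)) - (z.toNat : ℝ) = -z := by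
      have : (((-z).toNat : ℤ)) - (z.toNat : ℤ) = -z := by omega
      exact_mod_cast this
    have e3 : (((-z).toNat : ℝ)) * M - (z.toNat : ℝ) * M = - z * M := by
      rw [← sub_mul, e2]
    constructor
    · have : (a : ℝ) + (-z).toNat * M < b + z.toNat * M + c := by linarith [h.2]
      exact_mod_cast this
    · have : (b : ℝ) + z.toNat * M < a + (-z).toNat * M + c := by linarith [h.1]
      exact_mod_cast this

theorem exists_approx {M : ℕ} (hM : 0 < M) (x : T) :
    ∃ u : ℕ, ‖(((u : ℝ) / M : ℝ) : T) - x‖ ≤ 1 / M := by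
  have hM' : (0 : ℝ) < M := by exact_mod_cast hM
  obtain ⟨θ, hθ, rfl⟩ : ∃ θ : ℝ, 0 ≤ θ ∧ (θ : T) = x := by
    obtain ⟨θ, hθ, h⟩ := AddCircle.coe_image_Ico_eq (p := (1 : ℝ)) (a := 0) ▸ Set.mem_univ x
    exact ⟨θ, hθ.1, h⟩
  refine ⟨⌊θ * M⌋₊, ?_⟩
  rw [← AddCircle.coe_sub]
  refine (norm_coe_le _).trans ?_
  rw [le_div_iff₀ hM', ← abs_of_pos hM', ← abs_mul, abs_of_pos hM', abs_le]
  have h1 := Nat.floor_le (show 0 ≤ θ * M by positivity)
  have h2 := Nat.lt_floor_add_one (θ * M)
  have e : ((⌊θ * M⌋₊ : ℝ) / M - θ) * M = ⌊θ * M⌋₊ - θ * M := by field_simp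
  rw [e]
  constructor <;> linarith

/-- The finite certificate for the divisibility by `p`. -/
def Cond (d : ℕ → ℕ → ℝ) (m0 : ℕ) (v : List ℕ) (p : ℕ) : Prop :=
  ∃ m : ℕ, ∃ u : List ℕ,
    (∀ i, ∃ k < u.length, d i k < 1 / 2 ^ (m0 + 1 + m)) ∧
    (∀ k < u.length, ∀ l < u.length, d k l < 4 / 2 ^ (m0 + 1 + m) →
      Near ((u[k]?).getD 0) ((u[l]?).getD 0) (100 * p) 5) ∧
    (∀ k < u.length, ∀ i < v.length, d k i < 1 / 2 ^ (m0 + 1) →
      Near ((u[k]?).getD 0) ((v[i]?).getD 0) 100 10)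

theorem net {Y : Type*} [MetricSpace Y] [CompactSpace Y] {y : ℕ → Y} (hy : DenseRange y) {ε : ℝ}
    (hε : 0 < ε) : ∃ r : ℕ, ∀ z, ∃ k < r, dist z (y k) < ε := by
  obtain ⟨t, ht⟩ := isCompact_univ.elim_finite_subcover (fun k : ℕ => Metric.ball (y k) ε)
    (fun k => Metric.isOpen_ball) (by
      intro z _
      obtain ⟨k, hk⟩ := Metric.denseRange_iff.1 hy z ε hε
      exact Set.mem_iUnion.2 ⟨k, hk⟩)
  refine ⟨t.sup id + 1, fun z => ?_⟩
  obtain ⟨k, hk, hz⟩ := Set.mem_iUnion₂.1 (ht (Set.mem_univ z))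
  exact ⟨k, Nat.lt_succ_of_le (Finset.le_sup (f := id) hk), hz⟩

theorem exists_pow_small {δ c : ℝ} (hδ : 0 < δ) (hc : 0 < c) (m0 : ℕ) :
    ∃ m : ℕ, c / 2 ^ (m0 + m) < δ := by
  obtain ⟨n, hn⟩ := exists_pow_lt_of_lt_one (show (0 : ℝ) < δ / c by positivity)
      (show (2⁻¹ : ℝ) < 1 by norm_num)
  refine ⟨n, ?_⟩
  have h1 : (2 : ℝ) ^ n ≤ 2 ^ (m0 + n) := pow_le_pow_right₀ (by norm_num) (by omega)
  have h2 : c / 2 ^ (m0 + n) ≤ c / 2 ^ n := div_le_div_of_nonneg_left hc.le (by positivity) h1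
  refine h2.trans_lt ?_
  rw [inv_pow, lt_div_iff₀ hc] at hn
  rw [div_eq_mul_inv, mul_comm]
  exact hn

theorem cond_iff {Y : Type*} [MetricSpace Y] [CompactSpace Y] {y : ℕ → Y} (hy : DenseRange y)
    {F : Y → T} (hF : Continuous F) : ∃ (m0 : ℕ) (v : List ℕ), ∀ p : ℕ, 0 < p →
    ((∃ h : Y → T, Continuous h ∧ ∀ z, p • h z = F z) ↔
      Cond (fun i k => dist (y i) (y k)) m0 v p) := by
  have hUF := Metric.uniformContinuous_iff.1 (CompactSpace.uniformContinuous_of_continuous hF)
  obtain ⟨δ, hδ, hFδ⟩ := hUF (1 / 100) (by norm_num)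
  obtain ⟨m0, hm0⟩ := exists_pow_small hδ one_pos 0
  rw [zero_add] at hm0
  have hF1 : ∀ z w, dist z w < 1 / 2 ^ m0 → ‖F z - F w‖ < 1 / 100 := fun z w h => by
    rw [← dist_eq_norm]; exact hFδ (h.trans hm0)
  obtain ⟨r0, hr0⟩ := net hy (show (0 : ℝ) < 1 / 2 ^ (m0 + 1) by positivity)
  choose av hav using fun x : T => exists_approx (M := 100) (by norm_num) x
  have hlen : ((List.range r0).map fun i => av (F (y i))).length = r0 := by simp
  refine ⟨m0, (List.range r0).map fun i => av (F (y i)), fun p hp => ?_⟩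
  have hp' : (0 : ℝ) < p := by exact_mod_cast hp
  have hv : ∀ i < r0, (((List.range r0).map fun i => av (F (y i)))[i]?).getD 0 = av (F (y i)) := by
    intro i hi
    rw [List.getElem?_map, List.getElem?_range hi]; rfl
  have hM : 0 < 100 * p := by omega
  have hpM : ∀ a : ℕ, p • (((a : ℝ) / (100 * p : ℕ) : ℝ) : T) = (((a : ℝ) / 100 : ℝ) : T) := by
    intro a
    rw [← AddCircle.coe_nsmul]
    congr 1
    rw [nsmul_eq_mul]
    push_cast
    field_simp
  have h100 : ∀ a : ℕ, (((a : ℝ) / (100 : ℕ) : ℝ) : T) = (((a : ℝ) / 100 : ℝ) : T) := by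
    intro a; norm_num
  constructor
  · rintro ⟨h, hc, hh⟩
    have hUh := Metric.uniformContinuous_iff.1 (CompactSpace.uniformContinuous_of_continuous hc)
    obtain ⟨δ', hδ', hhδ⟩ := hUh (1 / (100 * p)) (by positivity)
    obtain ⟨m, hm⟩ := exists_pow_small hδ' (show (0 : ℝ) < 4 by norm_num) (m0 + 1)
    obtain ⟨r, hr⟩ := net hy (show (0 : ℝ) < 1 / 2 ^ (m0 + 1 + m) by positivity)
    choose au hau using fun x : T => exists_approx (M := 100 * p) hM x
    have hu : ∀ i < r, (((List.range r).map fun i => au (h (y i)))[i]?).getD 0 = au (h (y i)) := by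
      intro i hi
      rw [List.getElem?_map, List.getElem?_range hi]; rfl
    refine ⟨m, (List.range r).map fun i => au (h (y i)), ?_, ?_, ?_⟩
    · intro i
      obtain ⟨k, hk, h1⟩ := hr (y i)
      exact ⟨k, by simpa using hk, h1⟩
    · intro k hk l hl hkl
      simp only [List.length_map, List.length_range] at hk hl
      rw [hu k hk, hu l hl, near_iff hM]
      have h1 := hau (h (y k))
      have h2 := hau (h (y l))
      have h3 : ‖h (y k) - h (y l)‖ < 1 / (100 * p) := by
        rw [← dist_eq_norm]; exact hhδ (hkl.trans hm)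
      have e : ((((au (h (y k)) : ℕ) : ℝ) / (100 * p : ℕ) : ℝ) : T) -
          ((((au (h (y l)) : ℕ) : ℝ) / (100 * p : ℕ) : ℝ) : T) =
          (((((au (h (y k)) : ℕ) : ℝ) / (100 * p : ℕ) : ℝ) : T) - h (y k)) +
          (h (y k) - h (y l)) - (((((au (h (y l)) : ℕ) : ℝ) / (100 * p : ℕ) : ℝ) : T) - h (y l)) := by
        abel
      rw [e]
      refine (norm_sub_le _ _).trans_lt ?_
      have h4 := norm_add_le (((((au (h (y k)) : ℕ) : ℝ) / (100 * p : ℕ) : ℝ) : T) - h (y k))
        (h (y k) - h (y l))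
      have e2 : ((5 : ℕ) : ℝ) / ((100 * p : ℕ) : ℝ) = 5 * (1 / (100 * p)) := by
        push_cast; ring
      have e3 : (1 : ℝ) / ((100 * p : ℕ) : ℝ) = 1 / (100 * p) := by push_cast; rfl
      rw [e3] at h1 h2
      rw [e2]
      have : (0 : ℝ) < 1 / (100 * p) := by positivity
      linarith
    · intro k hk i hi hki
      simp only [List.length_map, List.length_range] at hk hi
      rw [hu k hk, hv i hi, near_iff (by norm_num), h100, h100]
      have h1 : ‖(((au (h (y k)) : ℝ) / 100 : ℝ) : T) - F (y k)‖ ≤ 1 / 100 := by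
        rw [← hpM, ← hh, ← nsmul_sub]
        refine (norm_nsmul_le (n := p)).trans ?_
        have h2 := hau (h (y k))
        calc (p : ℝ) * ‖(((au (h (y k)) : ℝ) / (100 * p : ℕ) : ℝ) : T) - h (y k)‖
            ≤ p * (1 / ((100 * p : ℕ) : ℝ)) := mul_le_mul_of_nonneg_left h2 hp'.le
          _ = 1 / 100 := by push_cast; field_simp
      have h2 := hav (F (y i))
      have h3 : ‖F (y k) - F (y i)‖ < 1 / 100 := hF1 _ _ (hki.trans (by
        rw [div_lt_div_iff₀ (by positivity) (by positivity), one_mul, one_mul]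
        exact pow_lt_pow_right₀ (by norm_num) (by omega)))
      rw [h100] at h2
      have e : (((au (h (y k)) : ℝ) / 100 : ℝ) : T) - (((av (F (y i)) : ℝ) / 100 : ℝ) : T) =
        ((((au (h (y k)) : ℝ) / 100 : ℝ) : T) - F (y k)) + (F (y k) - F (y i)) -
        ((((av (F (y i)) : ℝ) / 100 : ℝ) : T) - F (y i)) := by abel
      rw [e]
      refine (norm_sub_le _ _).trans_lt ?_
      have h4 := norm_add_le ((((au (h (y k)) : ℝ) / 100 : ℝ) : T) - F (y k)) (F (y k) - F (y i))
      have e5 : ((10 : ℕ) : ℝ) / ((100 : ℕ) : ℝ) = 10 / 100 := by norm_num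
      have e6 : (1 : ℝ) / ((100 : ℕ) : ℝ) = 1 / 100 := by norm_num
      rw [e6] at h2
      rw [e5]
      linarith
  · rintro ⟨m, u, hA, hB, hC⟩
    rw [hlen] at hC
    set c : ℝ := 2 / 2 ^ (m0 + 1 + m) with hcdef
    have hc1 : c ≤ 1 / 2 ^ m0 := by
      rw [hcdef, div_le_div_iff₀ (by positivity) (by positivity)]
      have : (2 : ℝ) ^ (m0 + 1) ≤ 2 ^ (m0 + 1 + m) := pow_le_pow_right₀ (by norm_num) (by omega)
      rw [pow_succ] at this
      linarith
    let U : ℕ → T := fun k => ((((u[k]?).getD 0 : ℕ) : ℝ) / (100 * p : ℕ) : ℝ)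
    let G : Y → T → Prop := fun z t => p • t = F z ∧
      ∀ k < u.length, c ≤ dist z (y k) ∨ ‖t - U k‖ ≤ 1 / (4 * p)
    have hnear : ∀ z, ∃ k < u.length, dist z (y k) < c := by
      intro z
      obtain ⟨i, hi⟩ := Metric.denseRange_iff.1 hy z (1 / 2 ^ (m0 + 1 + m)) (by positivity)
      obtain ⟨k, hk, h1⟩ := hA i
      refine ⟨k, hk, (dist_triangle _ (y i) _).trans_lt ?_⟩
      have e : c = 1 / 2 ^ (m0 + 1 + m) + 1 / 2 ^ (m0 + 1 + m) := by rw [hcdef]; ring
      rw [e]
      exact add_lt_add hi h1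
    have hex : ∀ z, ∃ t, G z t := by
      intro z
      obtain ⟨k, hk, hzk⟩ := hnear z
      obtain ⟨i, hi, hki⟩ := hr0 (y k)
      have h1 := hC k hk i hi hki
      rw [hv i hi, near_iff (by norm_num), h100, h100] at h1
      have h2 := hav (F (y i))
      rw [h100] at h2
      have h3 : ‖F (y k) - F (y i)‖ < 1 / 100 := hF1 _ _ (hki.trans (by
        rw [div_lt_div_iff₀ (by positivity) (by positivity), one_mul, one_mul]
        exact pow_lt_pow_right₀ (by norm_num) (by omega)))
      have h4 : ‖F z - F (y k)‖ < 1 / 100 := hF1 _ _ (hzk.trans_le hc1)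
      have h5 : ‖F z - (((((u[k]?).getD 0 : ℕ) : ℝ) / 100 : ℝ) : T)‖ < 13 / 100 := by
        have e : F z - (((((u[k]?).getD 0 : ℕ) : ℝ) / 100 : ℝ) : T) =
          ((F z - F (y k)) + (F (y k) - F (y i))) -
          ((((((u[k]?).getD 0 : ℕ) : ℝ) / 100 : ℝ) : T) - (((av (F (y i)) : ℝ) / 100 : ℝ) : T)) -
          ((((av (F (y i)) : ℝ) / 100 : ℝ) : T) - F (y i)) := by abel
        rw [e]
        refine (norm_sub_le _ _).trans_lt ?_
        have h6 := norm_sub_le ((F z - F (y k)) + (F (y k) - F (y i)))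
          ((((((u[k]?).getD 0 : ℕ) : ℝ) / 100 : ℝ) : T) - (((av (F (y i)) : ℝ) / 100 : ℝ) : T))
        have h7 := norm_add_le (F z - F (y k)) (F (y k) - F (y i))
        norm_num at h1 h2 h3 h4
        linarith
      obtain ⟨δ, hδ1, hδ2⟩ := exists_lift (F z - (((((u[k]?).getD 0 : ℕ) : ℝ) / 100 : ℝ) : T))
      have h8 : ‖((δ / p : ℝ) : T)‖ < 13 / (100 * p) := by
        refine (norm_coe_le _).trans_lt ?_
        rw [abs_div, abs_of_pos hp', hδ2, div_lt_div_iff₀ hp' (by positivity)]
        nlinarith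
      refine ⟨U k + ((δ / p : ℝ) : T), ?_, ?_⟩
      · rw [nsmul_add]
        have e1 : p • U k = (((((u[k]?).getD 0 : ℕ) : ℝ) / 100 : ℝ) : T) := hpM _
        have e2 : p • ((δ / p : ℝ) : T) = (δ : T) := by
          rw [← AddCircle.coe_nsmul]
          congr 1
          rw [nsmul_eq_mul]; field_simp
        rw [e1, e2, hδ1]
        abel
      · intro l hl
        by_cases hzl : c ≤ dist z (y l)
        · exact Or.inl hzl
        · right
          push Not at hzl
          have h9 : dist (y k) (y l) < 4 / 2 ^ (m0 + 1 + m) := by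
            refine (dist_triangle_left _ _ z).trans_lt ?_
            have e : (4 : ℝ) / 2 ^ (m0 + 1 + m) = c + c := by rw [hcdef]; ring
            rw [e]
            exact add_lt_add hzk hzl
          have h10 := hB k hk l hl h9
          rw [near_iff hM] at h10
          have e : U k + ((δ / p : ℝ) : T) - U l = (U k - U l) + ((δ / p : ℝ) : T) := by abel
          rw [e]
          refine (norm_add_le _ _).trans ?_
          have h11 : ‖U k - U l‖ < ((5 : ℕ) : ℝ) / ((100 * p : ℕ) : ℝ) := h10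
          have e2 : ((5 : ℕ) : ℝ) / ((100 * p : ℕ) : ℝ) = 5 * (1 / (100 * p)) := by
            push_cast; ring
          have e3 : (13 : ℝ) / (100 * p) = 13 * (1 / (100 * p)) := by ring
          have e4 : (1 : ℝ) / (4 * p) = 25 * (1 / (100 * p)) := by field_simp; norm_num
          rw [e2] at h11
          rw [e3] at h8
          rw [e4]
          have : (0 : ℝ) < 1 / (100 * p) := by positivity
          linarith
    have huniq : ∀ z t t', G z t → G z t' → t = t' := by
      intro z t t' h1 h2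
      obtain ⟨k, hk, hzk⟩ := hnear z
      have h3 : ‖t - U k‖ ≤ 1 / (4 * p) := (h1.2 k hk).resolve_left (not_le.2 hzk)
      have h4 : ‖t' - U k‖ ≤ 1 / (4 * p) := (h2.2 k hk).resolve_left (not_le.2 hzk)
      have h5 : t - t' = 0 := by
        refine norm_torsion hp (by rw [nsmul_sub, h1.1, h2.1, sub_self]) ?_
        have e : t - t' = (t - U k) - (t' - U k) := by abel
        rw [e]
        refine (norm_sub_le _ _).trans_lt ?_
        have e2 : (1 : ℝ) / p = 4 * (1 / (4 * p)) := by field_simp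
        rw [e2]
        have : (0 : ℝ) < 1 / (4 * p) := by positivity
        linarith
      exact sub_eq_zero.1 h5
    choose h hh using hex
    refine ⟨h, ?_, fun z => (hh z).1⟩
    have hcl : IsClosed {x : Y × T | G x.1 x.2} := by
      have e : {x : Y × T | G x.1 x.2} = {x : Y × T | p • x.2 = F x.1} ∩
          ⋂ k : ℕ, ⋂ _ : k < u.length, ({x : Y × T | c ≤ dist x.1 (y k)} ∪
            {x : Y × T | ‖x.2 - U k‖ ≤ 1 / (4 * p)}) := by
        ext x; simp [G]
      rw [e]
      refine IsClosed.inter (isClosed_eq ((continuous_nsmul p).comp continuous_snd)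
        (hF.comp continuous_fst)) ?_
      refine isClosed_iInter fun k => isClosed_iInter fun _ => IsClosed.union ?_ ?_
      · exact isClosed_le continuous_const (continuous_fst.dist continuous_const)
      · exact isClosed_le ((continuous_snd.sub continuous_const).norm) continuous_const
    refine continuous_iff_isClosed.2 fun C hC => ?_
    have e : h ⁻¹' C = Prod.fst '' ({x : Y × T | G x.1 x.2} ∩ Prod.snd ⁻¹' C) := by
      ext z
      constructor
      · intro hz
        exact ⟨(z, h z), ⟨hh z, hz⟩, rfl⟩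
      · rintro ⟨⟨z', t⟩, ⟨h1, h2⟩, rfl⟩
        have : h z' = t := huniq _ _ _ (hh z') h1
        show h z' ∈ C
        rw [this]; exact h2
    rw [e]
    exact isClosedMap_fst_of_compactSpace _ (hcl.inter (hC.preimage continuous_snd))

end Pool.Agent.R922
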