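import Pool.Agent.R922.Met
import Pool.Agent.R922.Root
import Pool.Agent.R922.Low
import Pool.Agent.R922.PDefs

/-!
Computable presentations of Polish spaces: the solenoid of `D` has a `D`-computable presentation,
and a computable presentation of a homeomorphic copy computes `D` in three jumps.
-/

set_option autoImplicit false

namespace Pool.Agent.R922

open Filter Topology Encodable Pool.Agent.Helper578.JD Pool.Agent.Helper578.JD.Oracle
  Pool.Agent.Helper578.JD.Defs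

section comput

variable {α : Type*} [Primcodable α]

@[fun_prop] theorem cmodf {f g : α → ℕ} (hf : Computable f) (hg : Computable g) :
    Computable (fun x => f x % g x) := Primrec.nat_mod.to_comp.comp hf hg
@[fun_prop] theorem cdivf {f g : α → ℕ} (hf : Computable f) (hg : Computable g) :
    Computable (fun x => f x / g x) := Primrec.nat_div.to_comp.comp hf hg
@[fun_prop] theorem cpow2 {f : α → ℕ} (hf : Computable f) :
    Computable (fun x => 2 ^ f x) := two_pow_comp.comp hf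
@[fun_prop] theorem cgetD {f : α → Option ℕ} (hf : Computable f) :
    Computable (fun x => (f x).getD 0) :=
  Primrec.option_getD.to_comp.comp hf (Computable.const 0)
@[fun_prop] theorem cq {f : α → ℕ} (hf : Computable f) :
    Computable (fun x => q (f x)) := (q_comp Computable.id).comp hf

end comput

theorem computableIn_iff {A : Set ℕ} {f : ℕ × ℕ × ℕ → ℕ × ℕ} :
    ComputableIn {chi A} f ↔ REIn A fun p : (ℕ × ℕ × ℕ) × (ℕ × ℕ) => f p.1 = p.2 := by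
  have key : (fun n => Part.bind (decode (α := ℕ × ℕ × ℕ) n : Part (ℕ × ℕ × ℕ)) fun a =>
      (Part.some (f a)).map encode) =
      fun n => Part.some (encode (f (Denumerable.ofNat (ℕ × ℕ × ℕ) n))) := by
    funext n
    rw [Denumerable.decode_eq_ofNat]
    simp
  unfold ComputableIn RecursiveIn
  rw [key]
  constructor
  · intro h
    refine ((graph_of_recursiveIn h).comp
      (f := fun p : (ℕ × ℕ × ℕ) × (ℕ × ℕ) => (encode p.1, encode p.2)) (by fun_prop)).of_eq ?_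
    rintro ⟨a, b⟩
    dsimp only
    rw [Part.mem_some_iff, Denumerable.ofNat_encode]
    exact ⟨fun h => (encode_injective h).symm, fun h => by rw [h]⟩
  · intro h
    apply recursiveIn_of_graph
    have h1 : Computable fun n : ℕ => Denumerable.ofNat (ℕ × ℕ × ℕ) n := Computable.ofNat _
    have h2 : Computable fun n : ℕ => Denumerable.ofNat (ℕ × ℕ) n := Computable.ofNat _
    refine (h.comp (f := fun p : ℕ × ℕ => (Denumerable.ofNat (ℕ × ℕ × ℕ) p.1,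
      Denumerable.ofNat (ℕ × ℕ) p.2))
      ((h1.comp Computable.fst).pair (h2.comp Computable.snd))).of_eq ?_
    rintro ⟨a, b⟩
    dsimp only
    constructor
    · intro h3; rw [h3, Denumerable.encode_ofNat]
    · intro h3; rw [← h3, Denumerable.ofNat_encode]

/-- strict upper bounds of distances are enumerable -/
theorem lt_re {A : Set ℕ} {d : ℕ → ℕ → ℝ} {f : ℕ × ℕ × ℕ → ℕ × ℕ} (hf : ComputableIn {chi A} f)
    (h : ∀ i j n, |d i j - ((f (i, j, n)).1 : ℝ) / ((f (i, j, n)).2 + 1)| ≤ 1 / 2 ^ n) :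
    REIn A fun x : ℕ × ℕ × ℕ × ℕ => d x.1 x.2.1 < (x.2.2.1 : ℝ) / 2 ^ x.2.2.2 := by
  have h1 : REIn A fun x : ℕ × ℕ × ℕ × ℕ => ∃ y : ℕ × ℕ × ℕ, f (x.1, x.2.1, y.1) = y.2 ∧
      (y.2.1 * 2 ^ y.1 + (y.2.2 + 1)) * 2 ^ x.2.2.2 < x.2.2.1 * (y.2.2 + 1) * 2 ^ y.1 := by
    refine REIn.ex (S := fun (x : ℕ × ℕ × ℕ × ℕ) (y : ℕ × ℕ × ℕ) => f (x.1, x.2.1, y.1) = y.2 ∧
      (y.2.1 * 2 ^ y.1 + (y.2.2 + 1)) * 2 ^ x.2.2.2 < x.2.2.1 * (y.2.2 + 1) * 2 ^ y.1) ?_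
    refine REIn.and ((computableIn_iff.1 hf).comp
      (f := fun x : (ℕ × ℕ × ℕ × ℕ) × (ℕ × ℕ × ℕ) => ((x.1.1, x.1.2.1, x.2.1), x.2.2))
      (by fun_prop)) (REIn.of_re (RE.lt (by fun_prop) (by fun_prop)))
  refine h1.of_eq ?_
  rintro ⟨i, j, c, e⟩
  dsimp only
  have key : ∀ n u v : ℕ, ((u * 2 ^ n + (v + 1)) * 2 ^ e < c * (v + 1) * 2 ^ n) ↔
      (u : ℝ) / (v + 1) + 1 / 2 ^ n < (c : ℝ) / 2 ^ e := by
    intro n u v
    have h2 : (0 : ℝ) < v + 1 := by positivity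
    rw [div_add_div _ _ h2.ne' (by positivity), div_lt_div_iff₀ (by positivity) (by positivity)]
    rw [← Nat.cast_lt (α := ℝ)]
    push_cast
    constructor <;> intro h3 <;> linarith
  constructor
  · rintro ⟨⟨n, u, v⟩, h2, h3⟩
    dsimp only at h2 h3
    rw [key] at h3
    have h4 := h i j n
    rw [h2] at h4
    have h5 := (abs_le.1 h4).2
    dsimp only at h5
    linarith
  · intro hlt
    obtain ⟨n, hn⟩ := exists_pow_small (sub_pos.2 hlt) (show (0 : ℝ) < 2 by norm_num) 0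
    rw [zero_add] at hn
    refine ⟨(n, f (i, j, n)), rfl, ?_⟩
    dsimp only
    rw [key]
    have h4 := (abs_le.1 (h i j n)).1
    have h5 : (2 : ℝ) / 2 ^ n = 1 / 2 ^ n + 1 / 2 ^ n := by ring
    linarith

theorem near_re : REPred fun x : ℕ × ℕ × ℕ × ℕ => Near x.1 x.2.1 x.2.2.1 x.2.2.2 := by
  unfold Near
  refine RE.ex (p := fun (x : ℕ × ℕ × ℕ × ℕ) (s : ℕ) => ∃ t : ℕ,
    x.1 + s * x.2.2.1 < x.2.1 + t * x.2.2.1 + x.2.2.2 ∧
    x.2.1 + t * x.2.2.1 < x.1 + s * x.2.2.1 + x.2.2.2) ?_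
  refine RE.ex (p := fun (x : (ℕ × ℕ × ℕ × ℕ) × ℕ) (t : ℕ) =>
    x.1.1 + x.2 * x.1.2.2.1 < x.1.2.1 + t * x.1.2.2.1 + x.1.2.2.2 ∧
    x.1.2.1 + t * x.1.2.2.1 < x.1.1 + x.2 * x.1.2.2.1 + x.1.2.2.2) ?_
  exact RE.and (RE.lt (by fun_prop) (by fun_prop)) (RE.lt (by fun_prop) (by fun_prop))

theorem cond_re {A : Set ℕ} {d : ℕ → ℕ → ℝ}
    (hd : REIn A fun x : ℕ × ℕ × ℕ × ℕ => d x.1 x.2.1 < (x.2.2.1 : ℝ) / 2 ^ x.2.2.2)
    (m0 : ℕ) (v : List ℕ) {g : ℕ → ℕ} (hg : Computable g) :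
    REIn (jump (jump A)) fun j => Cond d m0 v (g j) := by
  unfold Cond
  refine REIn.ex (S := fun (j : ℕ) (m : ℕ) => ∃ u : List ℕ,
    (∀ i, ∃ k < u.length, d i k < 1 / 2 ^ (m0 + 1 + m)) ∧
    (∀ k < u.length, ∀ l < u.length, d k l < 4 / 2 ^ (m0 + 1 + m) →
      Near ((u[k]?).getD 0) ((u[l]?).getD 0) (100 * g j) 5) ∧
    (∀ k < u.length, ∀ i < v.length, d k i < 1 / 2 ^ (m0 + 1) →
      Near ((u[k]?).getD 0) ((v[i]?).getD 0) 100 10)) ?_
  refine REIn.ex (S := fun (x : ℕ × ℕ) (u : List ℕ) =>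
    (∀ i, ∃ k < u.length, d i k < 1 / 2 ^ (m0 + 1 + x.2)) ∧
    (∀ k < u.length, ∀ l < u.length, d k l < 4 / 2 ^ (m0 + 1 + x.2) →
      Near ((u[k]?).getD 0) ((u[l]?).getD 0) (100 * g x.1) 5) ∧
    (∀ k < u.length, ∀ i < v.length, d k i < 1 / 2 ^ (m0 + 1) →
      Near ((u[k]?).getD 0) ((v[i]?).getD 0) 100 10)) ?_
  have hd' := REIn.to_jump hd
  refine REIn.and ?_ (REIn.to_jump (REIn.and ?_ ?_)).1
  · have h1 : REIn A fun x : ((ℕ × ℕ) × List ℕ) × ℕ => ∃ k : ℕ, k < x.1.2.length ∧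
        d x.2 k < ((1 : ℕ) : ℝ) / 2 ^ (m0 + 1 + x.1.1.2) := by
      refine REIn.ex (S := fun (x : ((ℕ × ℕ) × List ℕ) × ℕ) (k : ℕ) => k < x.1.2.length ∧
        d x.2 k < ((1 : ℕ) : ℝ) / 2 ^ (m0 + 1 + x.1.1.2)) ?_
      refine REIn.and (REIn.of_re (RE.lt (by fun_prop) (by fun_prop))) ?_
      exact hd.comp (f := fun x : (((ℕ × ℕ) × List ℕ) × ℕ) × ℕ =>
        (x.1.2, x.2, 1, m0 + 1 + x.1.1.1.2)) (by fun_prop)
    have h2 := (REIn.to_jump h1).2
    have h3 := REIn.ex (S := fun (x : (ℕ × ℕ) × List ℕ) (i : ℕ) => ¬ ∃ k : ℕ, k < x.2.length ∧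
        d i k < ((1 : ℕ) : ℝ) / 2 ^ (m0 + 1 + x.1.2)) h2
    refine (REIn.to_jump h3).2.of_eq fun x => ?_
    rw [not_exists]
    simp only [not_not, Nat.cast_one]
  · have h1 : REIn (jump A) fun x : (((ℕ × ℕ) × List ℕ) × ℕ) × ℕ =>
        ¬ (d x.1.2 x.2 < ((4 : ℕ) : ℝ) / 2 ^ (m0 + 1 + x.1.1.1.2)) ∨
        Near ((x.1.1.2[x.1.2]?).getD 0) ((x.1.1.2[x.2]?).getD 0) (100 * g x.1.1.1.1) 5 := by
      refine REIn.or (hd'.2.comp (f := fun x : (((ℕ × ℕ) × List ℕ) × ℕ) × ℕ =>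
        (x.1.2, x.2, 4, m0 + 1 + x.1.1.1.2)) (by fun_prop)) (REIn.of_re ?_)
      exact RE.comp near_re (f := fun x : (((ℕ × ℕ) × List ℕ) × ℕ) × ℕ =>
        ((x.1.1.2[x.1.2]?).getD 0, (x.1.1.2[x.2]?).getD 0, 100 * g x.1.1.1.1, 5)) (by
          have : Computable fun x : (((ℕ × ℕ) × List ℕ) × ℕ) × ℕ => g x.1.1.1.1 :=
            hg.comp (by fun_prop)
          fun_prop)
    have h2 := REIn.all_lt (S := fun (x : ((ℕ × ℕ) × List ℕ) × ℕ) (l : ℕ) =>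
        ¬ (d x.2 l < ((4 : ℕ) : ℝ) / 2 ^ (m0 + 1 + x.1.1.2)) ∨
        Near ((x.1.2[x.2]?).getD 0) ((x.1.2[l]?).getD 0) (100 * g x.1.1.1) 5) h1
      (f := fun x => x.1.2.length) (by fun_prop)
    have h3 := REIn.all_lt (S := fun (x : (ℕ × ℕ) × List ℕ) (k : ℕ) => ∀ l < x.2.length,
        ¬ (d k l < ((4 : ℕ) : ℝ) / 2 ^ (m0 + 1 + x.1.2)) ∨
        Near ((x.2[k]?).getD 0) ((x.2[l]?).getD 0) (100 * g x.1.1) 5) h2
      (f := fun x => x.2.length) (by fun_prop)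
    refine h3.of_eq fun x => ?_
    simp only [← imp_iff_not_or, Nat.cast_ofNat]
  · have h1 : REIn (jump A) fun x : (((ℕ × ℕ) × List ℕ) × ℕ) × ℕ =>
        ¬ (d x.1.2 x.2 < ((1 : ℕ) : ℝ) / 2 ^ (m0 + 1)) ∨
        Near ((x.1.1.2[x.1.2]?).getD 0) ((v[x.2]?).getD 0) 100 10 := by
      refine REIn.or (hd'.2.comp (f := fun x : (((ℕ × ℕ) × List ℕ) × ℕ) × ℕ =>
        (x.1.2, x.2, 1, m0 + 1)) (by fun_prop)) (REIn.of_re ?_)
      exact RE.comp near_re (f := fun x : (((ℕ × ℕ) × List ℕ) × ℕ) × ℕ =>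
        ((x.1.1.2[x.1.2]?).getD 0, (v[x.2]?).getD 0, 100, 10)) (by fun_prop)
    have h2 := REIn.all_lt (S := fun (x : ((ℕ × ℕ) × List ℕ) × ℕ) (i : ℕ) =>
        ¬ (d x.2 i < ((1 : ℕ) : ℝ) / 2 ^ (m0 + 1)) ∨
        Near ((x.1.2[x.2]?).getD 0) ((v[i]?).getD 0) 100 10) h1
      (f := fun x => v.length) (by fun_prop)
    have h3 := REIn.all_lt (S := fun (x : (ℕ × ℕ) × List ℕ) (k : ℕ) => ∀ i < v.length,
        ¬ (d k i < ((1 : ℕ) : ℝ) / 2 ^ (m0 + 1)) ∨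
        Near ((x.2[k]?).getD 0) ((v[i]?).getD 0) 100 10) h2
      (f := fun x => x.2.length) (by fun_prop)
    refine h3.of_eq fun x => ?_
    simp only [← imp_iff_not_or, Nat.cast_one]

/-- A computable presentation of a copy of the solenoid of `D` computes `D` in three jumps. -/
theorem Red_of_presented {D A : Set ℕ} {Y : Type} [t : TopologicalSpace Y] (e : Sol D ≃ₜ Y)
    (h : Presented A Y) : Red D (jump^[3] A) := by
  obtain ⟨m, hm, -, y, hy, f, hf, hd⟩ := h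
  subst hm
  have hcomp : CompactSpace Y := e.compactSpace
  have hF : Continuous fun z : Y => (e.symm z).1 0 :=
    (continuous_apply 0).comp (continuous_subtype_val.comp e.symm.continuous)
  obtain ⟨m0, v, hmv⟩ := cond_iff hy hF
  have key : ∀ j, Cond (fun i k => dist (y i) (y k)) m0 v (q j) ↔ j ∈ D := by
    intro j
    rw [← hmv (q j) (zero_lt_one.trans (q_gt j)), ← root_iff]
    constructor
    · rintro ⟨h, hc, hh⟩
      refine ⟨fun z => h (e z), hc.comp e.continuous, fun z => ?_⟩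
      rw [hh, e.symm_apply_apply]
    · rintro ⟨h, hc, hh⟩
      exact ⟨fun z => h (e.symm z), hc.comp e.symm.continuous, fun z => hh _⟩
  have h1 := cond_re (d := fun i k => dist (y i) (y k)) (lt_re hf hd) m0 v (g := q) (by fun_prop)
  exact Red_of_REIn (h1.of_eq key)

end Pool.Agent.R922
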