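import Pool.Agent.R922.Pres

/-!
The solenoid of `D` has a `D`-computable presentation.
-/

set_option autoImplicit false

namespace Pool.Agent.R922

open Filter Topology Encodable Pool.Agent.Helper578.JD Pool.Agent.Helper578.JD.Oracle
  Pool.Agent.Helper578.JD.Defs

/-- the nonnegative rational number with code `i` -/
noncomputable def rat (i : ℕ) : {t : ℝ // 0 ≤ t} :=
  ⟨(i.unpair.1 : ℝ) / (i.unpair.2 + 1), by positivity⟩

theorem denseRange_rat : DenseRange rat := by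
  rw [Metric.denseRange_iff]
  rintro ⟨t, ht⟩ ε hε
  obtain ⟨b, hb⟩ := exists_nat_one_div_lt hε
  have hb' : (0 : ℝ) < b + 1 := by positivity
  refine ⟨Nat.pair ⌊t * (b + 1)⌋₊ b, ?_⟩
  rw [Subtype.dist_eq]
  show dist t (((Nat.pair ⌊t * (b + 1)⌋₊ b).unpair.1 : ℝ) /
    ((Nat.pair ⌊t * (b + 1)⌋₊ b).unpair.2 + 1)) < ε
  rw [Nat.unpair_pair, Real.dist_eq]
  refine lt_of_le_of_lt ?_ hb
  dsimp only
  have h1 := Nat.floor_le (show 0 ≤ t * (b + 1) by positivity)
  have h2 := Nat.lt_floor_add_one (t * (b + 1))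
  rw [le_div_iff₀ hb', ← abs_of_pos hb', ← abs_mul, abs_of_pos hb', abs_le]
  have e : (t - (⌊t * (b + 1)⌋₊ : ℝ) / (b + 1)) * (b + 1) = t * (b + 1) - ⌊t * (b + 1)⌋₊ := by
    field_simp
  rw [e]
  constructor <;> linarith

/-- the dense sequence -/
noncomputable def seq (D : Set ℕ) (i : ℕ) : Sol D := iota D (rat i).1

theorem denseRange_seq (D : Set ℕ) : DenseRange (seq D) :=
  (denseRange_iota_nonneg D).comp denseRange_rat ((continuous_iota D).comp continuous_subtype_val)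

/-- numerator of the difference of two rational numbers -/
def uu (i j : ℕ) : ℕ := (i.unpair.1 * (j.unpair.2 + 1) - j.unpair.1 * (i.unpair.2 + 1)) +
  (j.unpair.1 * (i.unpair.2 + 1) - i.unpair.1 * (j.unpair.2 + 1))

/-- denominator of the difference of two rational numbers -/
def vv (i j : ℕ) : ℕ := (i.unpair.2 + 1) * (j.unpair.2 + 1)

theorem vv_pos (i j : ℕ) : 0 < vv i j := Nat.mul_pos (Nat.succ_pos _) (Nat.succ_pos _)

theorem norm_seq (D : Set ℕ) (i j k : ℕ) : ‖(seq D i).1 k - (seq D j).1 k‖ =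
    ((min (uu i j % (vv i j * PP D k)) (vv i j * PP D k - uu i j % (vv i j * PP D k)) : ℕ) : ℝ) /
      ((vv i j * PP D k : ℕ) : ℝ) := by
  rw [← abs_sub_round_div_natCast_eq, ← UnitAddCircle.norm_eq]
  have hP : (0 : ℝ) < PP D k := by exact_mod_cast PP_pos D k
  have e : (seq D i).1 k - (seq D j).1 k =
      ((((i.unpair.1 : ℝ) / (i.unpair.2 + 1) - (j.unpair.1 : ℝ) / (j.unpair.2 + 1)) / PP D k : ℝ) :
        T) := by
    show ((((i.unpair.1 : ℝ) / (i.unpair.2 + 1)) / PP D k : ℝ) : T) -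
      ((((j.unpair.1 : ℝ) / (j.unpair.2 + 1)) / PP D k : ℝ) : T) = _
    rw [← AddCircle.coe_sub]
    congr 1
    ring
  rw [e]
  unfold uu vv
  rcases le_total (i.unpair.1 * (j.unpair.2 + 1)) (j.unpair.1 * (i.unpair.2 + 1)) with h | h
  · rw [Nat.sub_eq_zero_of_le h, zero_add, Nat.cast_sub h, ← norm_neg, ← AddCircle.coe_neg]
    congr 2
    push_cast
    field_simp
    ring
  · rw [Nat.sub_eq_zero_of_le h, add_zero, Nat.cast_sub h]
    congr 2
    push_cast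
    field_simp

/-- approximation of the summand of the distance, multiplied by `M` -/
def gg (u w M k : ℕ) : ℕ := min (M / 2 ^ k) ((M * min (u % w) (w - u % w)) / w)

theorem gg_spec {u w K k : ℕ} (hw : 0 < w) (hk : k ≤ 2 * K) :
    (gg u w (2 ^ (2 * K)) k : ℝ) / 2 ^ (2 * K) ≤
      min ((2⁻¹ : ℝ) ^ k) (((min (u % w) (w - u % w) : ℕ) : ℝ) / w) ∧
    min ((2⁻¹ : ℝ) ^ k) (((min (u % w) (w - u % w) : ℕ) : ℝ) / w) ≤
      (gg u w (2 ^ (2 * K)) k : ℝ) / 2 ^ (2 * K) + 1 / 2 ^ (2 * K) := by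
  have hw' : (0 : ℝ) < w := by exact_mod_cast hw
  set r := min (u % w) (w - u % w) with hr
  have h1 : ((2 ^ (2 * K) / 2 ^ k : ℕ) : ℝ) = 2 ^ (2 * K) * (2⁻¹ : ℝ) ^ k := by
    rw [Nat.pow_div hk (by norm_num)]
    push_cast
    rw [inv_pow, ← div_eq_mul_inv, eq_div_iff (by positivity), ← pow_add]
    congr 1; omega
  have h2 : (((2 ^ (2 * K) * r) / w : ℕ) : ℝ) ≤ 2 ^ (2 * K) * ((r : ℝ) / w) := by
    refine (Nat.cast_div_le).trans_eq ?_
    push_cast; ring
  have h3 : 2 ^ (2 * K) * ((r : ℝ) / w) ≤ (((2 ^ (2 * K) * r) / w : ℕ) : ℝ) + 1 := by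
    have h4 : 2 ^ (2 * K) * r < w * ((2 ^ (2 * K) * r) / w + 1) := Nat.lt_mul_div_succ _ hw
    have h5 : (2 : ℝ) ^ (2 * K) * r < w * ((((2 ^ (2 * K) * r) / w : ℕ) : ℝ) + 1) := by
      exact_mod_cast h4
    rw [← mul_div_assoc, div_le_iff₀ hw']
    linarith
  have hp : (0 : ℝ) < 2 ^ (2 * K) := by positivity
  have h6 : ((gg u w (2 ^ (2 * K)) k : ℕ) : ℝ) =
      min (2 ^ (2 * K) * (2⁻¹ : ℝ) ^ k) (((2 ^ (2 * K) * r) / w : ℕ) : ℝ) := by
    unfold gg
    rw [Nat.cast_min, h1]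
  have h7 : 2 ^ (2 * K) * min ((2⁻¹ : ℝ) ^ k) ((r : ℝ) / w) =
      min (2 ^ (2 * K) * (2⁻¹ : ℝ) ^ k) (2 ^ (2 * K) * ((r : ℝ) / w)) :=
    mul_min_of_nonneg _ _ hp.le
  constructor
  · rw [div_le_iff₀ hp, mul_comm (min _ _) _, h6, h7]
    exact min_le_min le_rfl h2
  · rw [← add_div, le_div_iff₀ hp, mul_comm (min _ _) _, h6, h7]
    rw [← min_add_add_right]
    exact min_le_min (by linarith) h3

/-- the approximation of the distance -/
noncomputable def ff (D : Set ℕ) (x : ℕ × ℕ × ℕ) : ℕ × ℕ :=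
  (∑ k ∈ Finset.range (x.2.2 + 2), gg (uu x.1 x.2.1) (vv x.1 x.2.1 * PP D k)
    (2 ^ (2 * (x.2.2 + 2))) k, 2 ^ (2 * (x.2.2 + 2)) - 1)

theorem ff_spec (D : Set ℕ) (i j n : ℕ) :
    |(solMetric D).dist (seq D i) (seq D j) - ((ff D (i, j, n)).1 : ℝ) /
      ((ff D (i, j, n)).2 + 1)| ≤ 1 / 2 ^ n := by
  set K := n + 2 with hK
  have hden : (((ff D (i, j, n)).2 : ℝ) + 1) = 2 ^ (2 * K) := by
    show (((2 ^ (2 * (n + 2)) - 1 : ℕ) : ℝ) + 1) = _
    rw [Nat.cast_sub Nat.one_le_two_pow]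
    push_cast
    ring
  rw [hden]
  show |_ - ((∑ k ∈ Finset.range K, gg (uu i j) (vv i j * PP D k) (2 ^ (2 * K)) k : ℕ) : ℝ) / _| ≤ _
  obtain ⟨h1, h2⟩ := solDist_tail D (seq D i) (seq D j) K
  have hterm : ∀ k ∈ Finset.range K,
      ((gg (uu i j) (vv i j * PP D k) (2 ^ (2 * K)) k : ℕ) : ℝ) / 2 ^ (2 * K) ≤
        min ((2⁻¹ : ℝ) ^ k) ‖(seq D i).1 k - (seq D j).1 k‖ ∧
      min ((2⁻¹ : ℝ) ^ k) ‖(seq D i).1 k - (seq D j).1 k‖ ≤
        ((gg (uu i j) (vv i j * PP D k) (2 ^ (2 * K)) k : ℕ) : ℝ) / 2 ^ (2 * K) +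
        1 / 2 ^ (2 * K) := by
    intro k hk
    have hk' := Finset.mem_range.1 hk
    rw [norm_seq]
    exact gg_spec (Nat.mul_pos (vv_pos i j) (PP_pos D k)) (by omega)
  have h3 := Finset.sum_le_sum fun k hk => (hterm k hk).1
  have h4 := Finset.sum_le_sum fun k hk => (hterm k hk).2
  rw [Finset.sum_add_distrib, Finset.sum_const, Finset.card_range, nsmul_eq_mul] at h4
  rw [← Finset.sum_div] at h3 h4
  rw [Nat.cast_sum]
  have h5 : (K : ℝ) * (1 / 2 ^ (2 * K)) ≤ 1 / 2 ^ K := by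
    rw [mul_one_div, div_le_div_iff₀ (by positivity) (by positivity), one_mul]
    have h6 : (K : ℝ) ≤ 2 ^ K := by exact_mod_cast (Nat.lt_two_pow_self).le
    calc (K : ℝ) * 2 ^ K ≤ 2 ^ K * 2 ^ K := mul_le_mul_of_nonneg_right h6 (by positivity)
      _ = 2 ^ (2 * K) := by rw [← pow_add]; congr 1; omega
  have h7 : (2 : ℝ) * 2⁻¹ ^ K = 2 * (1 / 2 ^ K) := by rw [inv_pow]; ring
  have h8 : (1 : ℝ) / 2 ^ n = 4 * (1 / 2 ^ K) := by
    rw [hK, pow_add]; field_simp; norm_num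
  have h9 : (0 : ℝ) < 1 / 2 ^ K := by positivity
  rw [abs_le, h8]
  constructor <;> linarith

/-! ### Computability -/

/-- one step of the computation -/
def step (u v M : ℕ) (s : ℕ × ℕ × ℕ) (b : Bool) : ℕ × ℕ × ℕ :=
  (s.1 + 1, bif b then s.2.1 * q s.1 else s.2.1, s.2.2 + gg u (v * s.2.1) M s.1)

/-- the precision -/
@[irreducible] def MM (n : ℕ) : ℕ := 2 ^ (2 * (n + 2))

theorem MM_comp : Computable MM := by
  unfold MM; fun_prop

/-- the computation with given parameters -/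
def GG (x : (ℕ × ℕ × ℕ) × List Bool) : ℕ × ℕ × ℕ :=
  x.2.foldl (fun s b => step x.1.1 x.1.2.1 x.1.2.2 s b) (0, 1, 0)

/-- the computation from the list of the first answers of the oracle -/
def FF (x : (ℕ × ℕ × ℕ) × List Bool) : ℕ × ℕ :=
  ((GG ((uu x.1.1 x.1.2.1, vv x.1.1 x.1.2.1, MM x.1.2.2), x.2)).2.2, MM x.1.2.2 - 1)

theorem uu_comp : Computable fun x : ℕ × ℕ => uu x.1 x.2 := by
  unfold uu; fun_prop

theorem vv_comp : Computable fun x : ℕ × ℕ => vv x.1 x.2 := by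
  unfold vv; fun_prop

theorem gg_comp : Computable fun x : ℕ × ℕ × ℕ × ℕ => gg x.1 x.2.1 x.2.2.1 x.2.2.2 := by
  unfold gg; fun_prop

theorem step_comp : Computable fun x : (ℕ × ℕ × ℕ) × ((ℕ × ℕ × ℕ) × Bool) =>
    step x.1.1 x.1.2.1 x.1.2.2 x.2.1 x.2.2 := by
  unfold step
  have h : Computable fun x : (ℕ × ℕ × ℕ) × ((ℕ × ℕ × ℕ) × Bool) =>
      gg x.1.1 (x.1.2.1 * x.2.1.2.1) x.1.2.2 x.2.1.1 :=
    gg_comp.comp (f := fun x : ℕ × ℕ × ℕ × ℕ => gg x.1 x.2.1 x.2.2.1 x.2.2.2)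
      (g := fun x : (ℕ × ℕ × ℕ) × ((ℕ × ℕ × ℕ) × Bool) =>
        (x.1.1, x.1.2.1 * x.2.1.2.1, x.1.2.2, x.2.1.1)) (by fun_prop)
  fun_prop

theorem GG_comp : Computable GG :=
  RE.list_foldl (α := (ℕ × ℕ × ℕ) × List Bool) (β := Bool) (σ := ℕ × ℕ × ℕ)
    (f := fun x => x.2) (g := fun _ => (0, 1, 0))
    (h := fun x y => step x.1.1 x.1.2.1 x.1.2.2 y.1 y.2)
    (by fun_prop) (by fun_prop)
    (step_comp.comp (g := fun x : ((ℕ × ℕ × ℕ) × List Bool) × ((ℕ × ℕ × ℕ) × Bool) =>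
      (x.1.1, x.2)) (by fun_prop))

theorem FF_comp : Computable FF := by
  have h1 : Computable fun x : (ℕ × ℕ × ℕ) × List Bool => uu x.1.1 x.1.2.1 :=
    uu_comp.comp (g := fun x : (ℕ × ℕ × ℕ) × List Bool => (x.1.1, x.1.2.1)) (by fun_prop)
  have h2 : Computable fun x : (ℕ × ℕ × ℕ) × List Bool => vv x.1.1 x.1.2.1 :=
    vv_comp.comp (g := fun x : (ℕ × ℕ × ℕ) × List Bool => (x.1.1, x.1.2.1)) (by fun_prop)
  have h3 : Computable fun x : (ℕ × ℕ × ℕ) × List Bool => MM x.1.2.2 :=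
    MM_comp.comp (by fun_prop)
  have h4 : Computable fun x : (ℕ × ℕ × ℕ) × List Bool =>
      GG ((uu x.1.1 x.1.2.1, vv x.1.1 x.1.2.1, MM x.1.2.2), x.2) :=
    GG_comp.comp ((h1.pair (h2.pair h3)).pair Computable.snd)
  have h5 : Computable fun x : (ℕ × ℕ × ℕ) × List Bool => MM x.1.2.2 - 1 :=
    RE.csub h3 (Computable.const 1)
  exact (Computable.snd.comp (Computable.snd.comp h4)).pair h5

theorem foldl_step (D : Set ℕ) (u v M n : ℕ) (bt : ℕ → Bool) (hb : ∀ k, bt k = true ↔ k ∈ D) :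
    ((List.range n).map bt).foldl (fun s b => step u v M s b) (0, 1, 0) =
      (n, PP D n, ∑ k ∈ Finset.range n, gg u (v * PP D k) M k) := by
  induction n with
  | zero => rfl
  | succ n ih =>
    rw [List.range_succ, List.map_append, List.foldl_append, ih]
    simp only [List.map_cons, List.map_nil, List.foldl_cons, List.foldl_nil]
    unfold step
    dsimp only
    rw [Finset.sum_range_succ]
    have h : (bif bt n then PP D n * q n else PP D n) = PP D (n + 1) := by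
      show _ = PP D n * cf D n
      by_cases hn : n ∈ D
      · rw [(hb n).2 hn, cf_mem hn]; rfl
      · have : bt n = false := by
          rw [← Bool.not_eq_true]; exact fun h => hn ((hb n).1 h)
        rw [this, cf_not_mem hn, mul_one]; rfl
    rw [h]

theorem ff_computable (D : Set ℕ) : ComputableIn {chi D} (ff D) := by
  classical
  rw [computableIn_iff]
  have h1 : REIn D fun p : (ℕ × ℕ × ℕ) × (ℕ × ℕ) => ∃ L : List Bool,
      L.length = p.1.2.2 + 2 ∧ (∀ k < p.1.2.2 + 2, (L[k]? = some true ∧ k ∈ D) ∨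
        (L[k]? = some false ∧ k ∉ D)) ∧ FF (p.1, L) = p.2 := by
    refine REIn.ex (S := fun (p : (ℕ × ℕ × ℕ) × (ℕ × ℕ)) (L : List Bool) =>
      L.length = p.1.2.2 + 2 ∧ (∀ k < p.1.2.2 + 2, (L[k]? = some true ∧ k ∈ D) ∨
        (L[k]? = some false ∧ k ∉ D)) ∧ FF (p.1, L) = p.2) ?_
    refine REIn.and (REIn.of_re (RE.eq (by fun_prop) (by fun_prop))) (REIn.and ?_
      (REIn.of_re (RE.eq ?_ (by fun_prop))))
    · refine REIn.all_lt (S := fun (x : ((ℕ × ℕ × ℕ) × (ℕ × ℕ)) × List Bool) (k : ℕ) =>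
        (x.2[k]? = some true ∧ k ∈ D) ∨ (x.2[k]? = some false ∧ k ∉ D)) ?_ (by fun_prop)
      exact REIn.or (REIn.and (REIn.of_re (RE.eq (by fun_prop) (by fun_prop)))
        (REIn.mem (by fun_prop))) (REIn.and (REIn.of_re (RE.eq (by fun_prop) (by fun_prop)))
        (REIn.not_mem (by fun_prop)))
    · exact FF_comp.comp (g := fun x : ((ℕ × ℕ × ℕ) × (ℕ × ℕ)) × List Bool => (x.1.1, x.2))
        (by fun_prop)
  refine h1.of_eq ?_
  rintro ⟨⟨i, j, n⟩, y⟩
  dsimp only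
  let bt : ℕ → Bool := fun k => decide (k ∈ D)
  have hbt : ∀ k, bt k = true ↔ k ∈ D := fun k => by simp [bt]
  have hF : FF ((i, j, n), (List.range (n + 2)).map bt) = ff D (i, j, n) := by
    unfold FF ff GG MM
    dsimp only
    rw [foldl_step D _ _ _ _ bt hbt]
  constructor
  · rintro ⟨L, h2, h3, h4⟩
    have h5 : L = (List.range (n + 2)).map bt := by
      refine List.ext_getElem? fun k => ?_
      by_cases hk : k < n + 2
      · rw [List.getElem?_map, List.getElem?_range hk, Option.map_some]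
        rcases h3 k hk with ⟨h6, h7⟩ | ⟨h6, h7⟩
        · rw [h6, (hbt k).2 h7]
        · rw [h6]
          have : bt k = false := by
            rw [← Bool.not_eq_true]; exact fun h => h7 ((hbt k).1 h)
          rw [this]
      · rw [List.getElem?_eq_none (by omega), List.getElem?_eq_none (by simp; omega)]
    rw [← hF, ← h5, h4]
  · intro h2
    refine ⟨(List.range (n + 2)).map bt, by simp, ?_, by rw [hF, h2]⟩
    intro k hk
    rw [List.getElem?_map, List.getElem?_range hk, Option.map_some]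
    by_cases hkD : k ∈ D
    · exact Or.inl ⟨by rw [(hbt k).2 hkD], hkD⟩
    · refine Or.inr ⟨?_, hkD⟩
      have : bt k = false := by
        rw [← Bool.not_eq_true]; exact fun h => hkD ((hbt k).1 h)
      rw [this]

/-- **The solenoid of `D` has a `D`-computable presentation.** -/
theorem presented_Sol (D : Set ℕ) : Presented D (Sol D) := by
  refine ⟨solMetric D, rfl, ?_, seq D, denseRange_seq D, ff D, ff_computable D, ff_spec D⟩
  have hc : @CompactSpace (Sol D) (solMetric D).toUniformSpace.toTopologicalSpace :=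
    (inferInstance : CompactSpace (Sol D))
  exact @complete_of_compact _ (solMetric D).toUniformSpace hc

end Pool.Agent.R922
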