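import Pool.Agent.Helper578.JD.Decode

/-!
The solenoid of a set `D` of natural numbers: the inverse limit of circles whose `n`-th bonding map
is the multiplication by `q n = 2 ^ 2 ^ n + 1` if `n ∈ D`, and the identity otherwise.
-/

set_option autoImplicit false

namespace Pool.Agent.R922

open Filter Topology Pool.Agent.Helper578.JD

/-- The circle `ℝ / ℤ`. -/
abbrev T : Type := UnitAddCircle

/-- the degree of the `n`-th bonding map -/
noncomputable def cf (D : Set ℕ) (n : ℕ) : ℕ := by
  classical exact if n ∈ D then q n else 1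

theorem cf_mem {D : Set ℕ} {n : ℕ} (h : n ∈ D) : cf D n = q n := by
  unfold cf; rw [if_pos h]

theorem cf_not_mem {D : Set ℕ} {n : ℕ} (h : n ∉ D) : cf D n = 1 := by
  unfold cf; rw [if_neg h]

theorem cf_pos (D : Set ℕ) (n : ℕ) : 0 < cf D n := by
  by_cases h : n ∈ D
  · rw [cf_mem h]; exact zero_lt_one.trans (q_gt n)
  · rw [cf_not_mem h]; exact zero_lt_one

/-- the product of the degrees of the first `n` bonding maps -/
noncomputable def PP (D : Set ℕ) : ℕ → ℕ
  | 0 => 1
  | n + 1 => PP D n * cf D n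

theorem PP_pos (D : Set ℕ) (n : ℕ) : 0 < PP D n := by
  induction n with
  | zero => exact zero_lt_one
  | succ n ih => exact Nat.mul_pos ih (cf_pos D n)

theorem PP_dvd (D : Set ℕ) {k n : ℕ} (h : k ≤ n) : PP D k ∣ PP D n := by
  induction n, h using Nat.le_induction with
  | base => exact dvd_refl _
  | succ n _ ih => exact ih.mul_right _

theorem coprime_PP {D : Set ℕ} {j : ℕ} (hj : j ∉ D) (n : ℕ) : Nat.Coprime (q j) (PP D n) := by
  induction n with
  | zero => exact Nat.coprime_one_right _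
  | succ n ih =>
    refine Nat.Coprime.mul_right ih ?_
    by_cases h : n ∈ D
    · rw [cf_mem h]
      exact q_coprime (fun e => hj (e ▸ h))
    · rw [cf_not_mem h]
      exact Nat.coprime_one_right _

theorem mem_of_dvd_PP {D : Set ℕ} {j n : ℕ} (h : q j ∣ PP D n) : j ∈ D := by
  by_contra hj
  have h1 := Nat.Coprime.eq_one_of_dvd (coprime_PP hj n) h
  have := q_gt j
  omega

/-- The solenoid of `D`. -/
def Sol (D : Set ℕ) : Set (ℕ → T) := {z | ∀ n, z n = cf D n • z (n + 1)}

theorem isClosed_Sol (D : Set ℕ) : IsClosed (Sol D) := by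
  have h : Sol D = ⋂ n, {z | z n = cf D n • z (n + 1)} := by
    ext z; simp [Sol]
  rw [h]
  exact isClosed_iInter fun n => isClosed_eq (continuous_apply n)
    ((continuous_nsmul (cf D n)).comp (continuous_apply (n + 1)))

instance (D : Set ℕ) : CompactSpace (Sol D) := isCompact_iff_compactSpace.1 (isClosed_Sol D).isCompact

theorem Sol_rel {D : Set ℕ} {z : ℕ → T} (hz : z ∈ Sol D) {k n : ℕ} (h : k ≤ n) :
    ∃ c, PP D n = PP D k * c ∧ z k = c • z n := by
  induction n, h using Nat.le_induction with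
  | base => exact ⟨1, by simp, by simp⟩
  | succ n _ ih =>
    obtain ⟨c, h1, h2⟩ := ih
    refine ⟨c * cf D n, ?_, ?_⟩
    · show PP D n * cf D n = _
      rw [h1, mul_assoc]
    · rw [h2, hz n, smul_smul]

/-- the one-parameter subgroup -/
noncomputable def iotaFun (D : Set ℕ) (t : ℝ) : ℕ → T := fun n => ((t / PP D n : ℝ) : T)

theorem iotaFun_mem (D : Set ℕ) (t : ℝ) : iotaFun D t ∈ Sol D := by
  intro n
  unfold iotaFun
  rw [← AddCircle.coe_nsmul]
  congr 1
  have h1 : (PP D n : ℝ) ≠ 0 := by exact_mod_cast (PP_pos D n).ne'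
  have h2 : (cf D n : ℝ) ≠ 0 := by exact_mod_cast (cf_pos D n).ne'
  rw [nsmul_eq_mul]
  have h3 : (PP D (n + 1) : ℝ) = PP D n * cf D n := by
    show ((PP D n * cf D n : ℕ) : ℝ) = _
    push_cast; rfl
  rw [h3]
  field_simp

/-- the one-parameter subgroup of the solenoid -/
noncomputable def iota (D : Set ℕ) (t : ℝ) : Sol D := ⟨iotaFun D t, iotaFun_mem D t⟩

theorem continuous_iota (D : Set ℕ) : Continuous (iota D) := by
  refine Continuous.subtype_mk ?_ _
  refine continuous_pi fun n => ?_
  exact (AddCircle.continuous_mk' 1).comp (continuous_id.div_const _)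

theorem exists_iota {D : Set ℕ} (z : Sol D) (n : ℕ) :
    ∃ t : ℝ, 0 ≤ t ∧ ∀ k ≤ n, (iota D t).1 k = z.1 k := by
  obtain ⟨θ, hθ⟩ : ∃ θ : ℝ, 0 ≤ θ ∧ (θ : T) = z.1 n := by
    obtain ⟨θ, hθ, h⟩ := AddCircle.coe_image_Ico_eq (p := (1 : ℝ)) (a := 0) ▸ Set.mem_univ (z.1 n)
    exact ⟨θ, hθ.1, h⟩
  refine ⟨PP D n * θ, mul_nonneg (Nat.cast_nonneg _) hθ.1, fun k hk => ?_⟩
  obtain ⟨c, h1, h2⟩ := Sol_rel z.2 hk
  rw [h2, ← hθ.2, ← AddCircle.coe_nsmul]
  show ((PP D n * θ / PP D k : ℝ) : T) = _
  congr 1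
  have h3 : (PP D k : ℝ) ≠ 0 := by exact_mod_cast (PP_pos D k).ne'
  rw [h1, nsmul_eq_mul]
  push_cast
  field_simp

theorem denseRange_iota_nonneg (D : Set ℕ) : DenseRange fun t : {t : ℝ // 0 ≤ t} => iota D t.1 := by
  intro z
  choose t ht h using exists_iota z
  have h1 : Tendsto (fun n => iota D (t n)) atTop (𝓝 z) := by
    rw [tendsto_subtype_rng, tendsto_pi_nhds]
    intro k
    refine tendsto_const_nhds.congr' ?_
    filter_upwards [eventually_ge_atTop k] with n hn
    exact (h n k hn).symm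
  exact mem_closure_of_tendsto h1 (Eventually.of_forall fun n => ⟨⟨t n, ht n⟩, rfl⟩)

theorem denseRange_iota (D : Set ℕ) : DenseRange (iota D) := by
  refine (denseRange_iota_nonneg D).mono ?_
  rintro _ ⟨t, rfl⟩
  exact ⟨t.1, rfl⟩

instance (D : Set ℕ) : ConnectedSpace (Sol D) := by
  have : PreconnectedSpace (Sol D) :=
    (denseRange_iota D).preconnectedSpace (continuous_iota D)
  exact { toNonempty := ⟨iota D 0⟩ }

/-! ### Divisibility of the projection -/

theorem coe_int (n : ℤ) : ((n : ℝ) : T) = 0 := by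
  rw [AddCircle.coe_eq_zero_iff]
  exact ⟨n, by simp⟩

theorem coe_nat (n : ℕ) : ((n : ℝ) : T) = 0 := by
  have := coe_int n
  rwa [Int.cast_natCast] at this

theorem exists_lift (x : T) : ∃ δ : ℝ, (δ : T) = x ∧ |δ| = ‖x‖ := by
  induction x using QuotientAddGroup.induction_on with
  | H x =>
    refine ⟨x - round x, ?_, ?_⟩
    · rw [AddCircle.coe_sub, coe_int, sub_zero]
    · exact UnitAddCircle.norm_eq.symm

theorem norm_coe_le (x : ℝ) : ‖(x : T)‖ ≤ |x| := by
  rw [UnitAddCircle.norm_eq]
  have h := round_le x 0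
  simpa using h

theorem norm_torsion {p : ℕ} (hp : 0 < p) {x : T} (hx : p • x = 0) (h : ‖x‖ < 1 / p) : x = 0 := by
  obtain ⟨δ, rfl, hδ⟩ := exists_lift x
  have hp' : (0 : ℝ) < p := by exact_mod_cast hp
  rw [← AddCircle.coe_nsmul, AddCircle.coe_eq_zero_iff] at hx
  obtain ⟨n, hn⟩ := hx
  rw [← hδ, lt_div_iff₀ hp'] at h
  have h1 : (n : ℝ) = p * δ := by simpa using hn
  have h2 : |(n : ℝ)| < 1 := by
    rw [h1, abs_mul, abs_of_pos hp', mul_comm]
    exact h
  have h3 : n = 0 := by
    have : |n| < 1 := by exact_mod_cast h2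
    exact Int.abs_lt_one_iff.1 this
  rw [h3] at h1
  have h4 : δ = 0 := by
    have : (p : ℝ) * δ = 0 := by rw [← h1]; simp
    rcases mul_eq_zero.1 this with h5 | h5
    · exact absurd h5 hp'.ne'
    · exact h5
  rw [h4]; rfl

theorem root_iff (D : Set ℕ) (j : ℕ) :
    (∃ h : Sol D → T, Continuous h ∧ ∀ z, q j • h z = z.1 0) ↔ j ∈ D := by
  have hq : 0 < q j := zero_lt_one.trans (q_gt j)
  have hq' : (0 : ℝ) < q j := by exact_mod_cast hq
  constructor
  · rintro ⟨h, hc, hh⟩
    let g : ℝ → T := fun t => h (iota D t) - ((t / q j : ℝ) : T)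
    have hg : Continuous g := (hc.comp (continuous_iota D)).sub
      ((AddCircle.continuous_mk' 1).comp (continuous_id.div_const _))
    have htor : ∀ t, q j • g t = 0 := by
      intro t
      show q j • (h (iota D t) - ((t / q j : ℝ) : T)) = 0
      rw [nsmul_sub, hh, ← AddCircle.coe_nsmul]
      have h1 : (iota D t).1 0 = ((t : ℝ) : T) := by
        show ((t / PP D 0 : ℝ) : T) = _
        congr 1
        show t / ((1 : ℕ) : ℝ) = t
        simp
      have h2 : q j • (t / (q j : ℝ)) = t := by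
        rw [nsmul_eq_mul]; field_simp
      rw [h1, h2, sub_self]
    have hconst : ∀ t, g t = g 0 := by
      have hcl : IsClosed {t | g t = g 0} := isClosed_eq hg continuous_const
      have hop : IsOpen {t | g t = g 0} := by
        rw [isOpen_iff_mem_nhds]
        intro t ht
        have h1 : Tendsto (fun s => ‖g s - g t‖) (𝓝 t) (𝓝 0) := by
          have : Tendsto (fun s => ‖g s - g t‖) (𝓝 t) (𝓝 ‖g t - g t‖) :=
            ((hg.sub continuous_const).norm).tendsto t
          simpa using this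
        have h2 : ∀ᶠ s in 𝓝 t, ‖g s - g t‖ < 1 / q j := h1.eventually (gt_mem_nhds (by positivity))
        filter_upwards [h2] with s hs
        have h3 : g s - g t = 0 := norm_torsion hq (by rw [nsmul_sub, htor, htor, sub_zero]) hs
        exact (sub_eq_zero.1 h3).trans ht
      have h3 := isClopen_iff.1 ⟨hcl, hop⟩
      rcases h3 with h3 | h3
      · have : (0 : ℝ) ∈ {t | g t = g 0} := rfl
        rw [h3] at this
        exact absurd this (Set.notMem_empty _)
      · intro t
        have : t ∈ {t | g t = g 0} := h3 ▸ Set.mem_univ t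
        exact this
    have hlim : Tendsto (fun n => iota D (PP D n)) atTop (𝓝 (iota D 0)) := by
      rw [tendsto_subtype_rng, tendsto_pi_nhds]
      intro k
      refine tendsto_const_nhds.congr' ?_
      filter_upwards [eventually_ge_atTop k] with n hn
      obtain ⟨c, hc⟩ := PP_dvd D hn
      show ((0 / PP D k : ℝ) : T) = ((PP D n / PP D k : ℝ) : T)
      have h3 : (PP D k : ℝ) ≠ 0 := by exact_mod_cast (PP_pos D k).ne'
      have h4 : ((PP D n : ℝ) / PP D k) = (c : ℕ) := by
        rw [hc]; push_cast; field_simp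
      rw [h4, coe_nat, zero_div]
      rfl
    have hlim2 : Tendsto (fun n => (((PP D n : ℝ) / q j : ℝ) : T)) atTop (𝓝 0) := by
      have h1 : Tendsto (fun n => h (iota D (PP D n)) - g 0) atTop (𝓝 (h (iota D 0) - g 0)) :=
        ((hc.tendsto _).comp hlim).sub_const _
      have h2 : h (iota D 0) - g 0 = 0 := by
        show h (iota D 0) - (h (iota D 0) - ((0 / q j : ℝ) : T)) = 0
        rw [zero_div]
        simp
      rw [h2] at h1
      refine h1.congr fun n => ?_
      rw [← hconst (PP D n)]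
      show h (iota D (PP D n)) - (h (iota D (PP D n)) - (((PP D n : ℝ) / q j : ℝ) : T)) = _
      abel
    have hlim3 : Tendsto (fun n => ‖(((PP D n : ℝ) / q j : ℝ) : T)‖) atTop (𝓝 0) := by
      have := hlim2.norm
      simpa using this
    obtain ⟨n, hn⟩ := (hlim3.eventually (gt_mem_nhds (show (0 : ℝ) < 1 / q j by positivity))).exists
    have h5 : (((PP D n : ℝ) / q j : ℝ) : T) = 0 := by
      refine norm_torsion hq ?_ hn
      rw [← AddCircle.coe_nsmul]
      have : q j • ((PP D n : ℝ) / q j) = (PP D n : ℕ) := by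
        rw [nsmul_eq_mul]; field_simp
      rw [this, coe_nat]
    rw [AddCircle.coe_eq_zero_iff] at h5
    obtain ⟨m, hm⟩ := h5
    have h6 : (m : ℝ) * q j = PP D n := by
      have : (m : ℝ) = (PP D n : ℝ) / q j := by simpa using hm
      rw [this]; field_simp
    have h7 : (q j : ℤ) ∣ (PP D n : ℤ) := ⟨m, by rw [mul_comm]; exact_mod_cast h6.symm⟩
    exact mem_of_dvd_PP (Int.natCast_dvd_natCast.1 h7)
  · intro hj
    refine ⟨fun z => PP D j • z.1 (j + 1), ?_, fun z => ?_⟩
    · exact (continuous_nsmul _).comp ((continuous_apply _).comp continuous_subtype_val)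
    · obtain ⟨c, h1, h2⟩ := Sol_rel z.2 (Nat.zero_le j)
      have h3 : c = PP D j := by
        rw [h1]; show c = 1 * c; rw [one_mul]
      have h4 := z.2 j
      rw [cf_mem hj] at h4
      rw [h2, h3, h4, smul_smul, smul_smul, mul_comm]

end Pool.Agent.R922
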